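import Pool.Agent.H61.P4.GE

/-!
Removing the 0-tight sets, and merging along 1-tight sets: the classes of parts any two of which can
be missed simultaneously.
-/

namespace H61P4

set_option linter.unusedSectionVars false

open Finset

variable {ι : Type*} [DecidableEq ι] [Fintype ι]

/-- Gallai–Edmonds data on the whole vertex set. -/
structure GED (L : SimpleGraph ι) (S : Finset ι) (P : Finset (Finset ι)) : Prop where
  bar : Bar L univ S P
  fc : ∀ K ∈ P, ∀ v ∈ K, PM L (K.erase v)
  hall : ∀ T ⊆ S, T.card ≤ (T.biUnion (nb L P)).card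
  rest : PM L (univ \ (S ∪ P.biUnion id))

variable {L : SimpleGraph ι} {P : Finset (Finset ι)} {S : Finset ι}

theorem exists_GED (L : SimpleGraph ι) : ∃ S P, GED L S P := by
  obtain ⟨S, P, h1, h2, h3, h4⟩ := exists_GE L univ
  refine ⟨S, P, h1, h3, h4, ?_⟩
  rw [← h2, sdiff_self]
  exact PM.nil

theorem Bar.choice (hB : Bar L univ S P) [Nonempty ι] : ∃ x : Finset ι → ι, ∀ K ∈ P, x K ∈ K := by
  have hx : ∀ A ∈ P, ∃ x, x ∈ A := by
    intro A hA
    exact card_pos.1 (by rcases hB.odd A hA with ⟨k, hk⟩; omega)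
  choose! x hx using hx
  exact ⟨x, hx⟩

theorem Bar.sdiff (hB : Bar L univ S P) (T : Finset ι) :
    Bar L univ (S \ T) (P \ T.biUnion (nb L P)) := by
  refine ⟨subset_univ _, fun _ _ => subset_univ _, ?_, ?_, ?_, ?_⟩
  · intro K hK; exact (hB.hKS K (mem_sdiff.1 hK).1).mono_right sdiff_subset
  · intro K hK; exact hB.odd K (mem_sdiff.1 hK).1
  · intro K hK K' hK' hne
    exact hB.disj K (mem_sdiff.1 hK).1 K' (mem_sdiff.1 hK').1 hne
  · intro K hK z hz w hw hzw
    rcases hB.adj K (mem_sdiff.1 hK).1 z hz w hw hzw with h1 | h1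
    · exact Or.inl h1
    · refine Or.inr (mem_sdiff.2 ⟨h1, fun h2 => (mem_sdiff.1 hK).2 ?_⟩)
      exact mem_biUnion.2 ⟨w, h2, mem_nb.2 ⟨(mem_sdiff.1 hK).1, z, hz, hzw.symm⟩⟩

theorem nb_sdiff (T : Finset ι) (t : ι) :
    nb L (P \ T.biUnion (nb L P)) t = nb L P t \ T.biUnion (nb L P) := by
  ext K
  simp only [mem_nb, mem_sdiff]
  tauto

theorem biUnion_nb_sdiff (T T' : Finset ι) :
    T'.biUnion (nb L (P \ T.biUnion (nb L P))) = T'.biUnion (nb L P) \ T.biUnion (nb L P) := by
  ext K
  simp only [mem_biUnion, nb_sdiff, mem_sdiff]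
  constructor
  · rintro ⟨a, ha, h1, h2⟩
    exact ⟨⟨a, ha, h1⟩, h2⟩
  · rintro ⟨⟨a, ha, h1⟩, h2⟩
    exact ⟨a, ha, h1, h2⟩

/-- Removing a 0-tight set. -/
theorem GED.sdiff (h : GED L S P) (T : Finset ι) (hT : T ⊆ S)
    (hc : (T.biUnion (nb L P)).card ≤ T.card) : GED L (S \ T) (P \ T.biUnion (nb L P)) := by
  have hc' : (T.biUnion (nb L P)).card = T.card := le_antisymm hc (h.hall T hT)
  refine ⟨h.bar.sdiff T, fun K hK => h.fc K (mem_sdiff.1 hK).1, ?_, ?_⟩
  · intro T' hT'
    rw [biUnion_nb_sdiff]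
    have hd : Disjoint T' T := by
      rw [disjoint_left]; intro z hz hz2
      exact (mem_sdiff.1 (hT' hz)).2 hz2
    have h1 := h.hall (T' ∪ T) (union_subset (hT'.trans sdiff_subset) hT)
    rw [card_union_of_disjoint hd] at h1
    have h2 : (T' ∪ T).biUnion (nb L P) = T'.biUnion (nb L P) ∪ T.biUnion (nb L P) := by
      ext K; simp only [mem_biUnion, mem_union]; constructor
      · rintro ⟨a, h3 | h3, h4⟩
        · exact Or.inl ⟨a, h3, h4⟩
        · exact Or.inr ⟨a, h3, h4⟩
      · rintro (⟨a, h3, h4⟩ | ⟨a, h3, h4⟩)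
        · exact ⟨a, Or.inl h3, h4⟩
        · exact ⟨a, Or.inr h3, h4⟩
    rw [h2] at h1
    have h3 := card_sdiff_add_card (T'.biUnion (nb L P)) (T.biUnion (nb L P))
    omega
  · rcases isEmpty_or_nonempty ι with he | hne
    · have : (univ : Finset ι) = ∅ := univ_eq_empty
      rw [this, empty_sdiff]
      exact PM.nil
    obtain ⟨x, hx⟩ := h.bar.choice
    obtain ⟨f, finj, hf⟩ := H61P4.hall T (nb L P) (fun T' hT' => h.hall T' (hT'.trans hT))
    have hsub : T.image f ⊆ T.biUnion (nb L P) := by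
      intro A hA
      obtain ⟨t, ht, rfl⟩ := mem_image.1 hA
      exact mem_biUnion.2 ⟨t, ht, hf t ht⟩
    have himg : T.image f = T.biUnion (nb L P) := by
      apply eq_of_subset_of_card_le hsub
      rw [card_image_of_injOn finj]; exact hc
    have hNP : ∀ K ∈ T.biUnion (nb L P), K ∈ P := fun K hK => biUnion_nb_subset hK
    have h1 := build T (T.biUnion (nb L P)) (fun K hK K' hK' => h.bar.disj K (hNP K hK) K' (hNP K' hK'))
      (fun K hK => (h.bar.hKS K (hNP K hK)).mono_right hT) (fun K hK => h.fc K (hNP K hK)) f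
      (fun t ht => ⟨mem_biUnion.2 ⟨t, ht, hf t ht⟩, (mem_nb.1 (hf t ht)).2⟩) finj x
      (fun K hK => hx K (hNP K hK))
    rw [himg, sdiff_self, bot_eq_empty, image_empty, sdiff_empty] at h1
    have h2 : univ \ (S \ T ∪ (P \ T.biUnion (nb L P)).biUnion id) =
        (univ \ (S ∪ P.biUnion id)) ∪ (T ∪ (T.biUnion (nb L P)).biUnion id) := by
      ext z
      constructor
      · intro hz
        have hz1 := (mem_sdiff.1 hz).2
        by_cases hz2 : z ∈ S ∪ P.biUnion id
        · apply mem_union_right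
          rcases mem_union.1 hz2 with h3 | h3
          · by_cases h4 : z ∈ T
            · exact mem_union_left _ h4
            · exact absurd (mem_union_left _ (mem_sdiff.2 ⟨h3, h4⟩)) hz1
          · obtain ⟨K, hK, hzK⟩ := mem_biUnion.1 h3
            by_cases h4 : K ∈ T.biUnion (nb L P)
            · exact mem_union_right _ (mem_biUnion.2 ⟨K, h4, hzK⟩)
            · exact absurd (mem_union_right _ (mem_biUnion.2 ⟨K, mem_sdiff.2 ⟨hK, h4⟩, hzK⟩)) hz1
        · exact mem_union_left _ (mem_sdiff.2 ⟨mem_univ _, hz2⟩)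
      · intro hz
        refine mem_sdiff.2 ⟨mem_univ _, fun hz1 => ?_⟩
        rcases mem_union.1 hz with h3 | h3
        · apply (mem_sdiff.1 h3).2
          rcases mem_union.1 hz1 with h4 | h4
          · exact mem_union_left _ (mem_sdiff.1 h4).1
          · obtain ⟨K, hK, hzK⟩ := mem_biUnion.1 h4
            exact mem_union_right _ (mem_biUnion.2 ⟨K, (mem_sdiff.1 hK).1, hzK⟩)
        · rcases mem_union.1 hz1 with h4 | h4
          · obtain ⟨h5, h6⟩ := mem_sdiff.1 h4
            rcases mem_union.1 h3 with h7 | h7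
            · exact h6 h7
            · obtain ⟨K, hK, hzK⟩ := mem_biUnion.1 h7
              exact disjoint_left.1 (h.bar.hKS K (hNP K hK)) hzK h5
          · obtain ⟨K, hK, hzK⟩ := mem_biUnion.1 h4
            obtain ⟨h5, h6⟩ := mem_sdiff.1 hK
            rcases mem_union.1 h3 with h7 | h7
            · exact disjoint_left.1 (h.bar.hKS K h5) hzK (hT h7)
            · obtain ⟨K', hK', hzK'⟩ := mem_biUnion.1 h7
              have : K = K' := by
                by_contra hne
                exact disjoint_left.1 (h.bar.disj K h5 K' (hNP K' hK') hne) hzK hzK'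
              subst this
              exact h6 hK'
    rw [h2]
    refine h.rest.union h1 ?_
    rw [disjoint_left]
    intro z hz hz2
    apply (mem_sdiff.1 hz).2
    rcases mem_union.1 hz2 with h3 | h3
    · exact mem_union_left _ (hT h3)
    · obtain ⟨K, hK, hzK⟩ := mem_biUnion.1 h3
      exact mem_union_right _ (mem_biUnion.2 ⟨K, hNP K hK, hzK⟩)

theorem exists_surplus (n : ℕ) : ∀ (S : Finset ι) (P : Finset (Finset ι)), S.card = n → GED L S P →
    ∃ S' P', GED L S' P' ∧ S'.card + P.card = S.card + P'.card ∧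
      ∀ T ⊆ S', T.Nonempty → T.card + 1 ≤ (T.biUnion (nb L P')).card := by
  induction n using Nat.strong_induction_on with
  | _ n ih =>
    intro S P hn h
    by_cases hs : ∀ T ⊆ S, T.Nonempty → T.card + 1 ≤ (T.biUnion (nb L P)).card
    · exact ⟨S, P, h, rfl, hs⟩
    · push Not at hs
      obtain ⟨T, hT, hTne, hc⟩ := hs
      have hc1 : (T.biUnion (nb L P)).card ≤ T.card := by omega
      have hc2 : (T.biUnion (nb L P)).card = T.card := le_antisymm hc1 (h.hall T hT)
      have hT1 : 1 ≤ T.card := card_pos.2 hTne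
      have hT2 : T.card ≤ S.card := card_le_card hT
      have hc3 : (S \ T).card = S.card - T.card := card_sdiff_of_subset hT
      have hc4 : (P \ T.biUnion (nb L P)).card = P.card - (T.biUnion (nb L P)).card :=
        card_sdiff_of_subset biUnion_nb_subset
      have hc5 : (T.biUnion (nb L P)).card ≤ P.card := card_le_card biUnion_nb_subset
      obtain ⟨S', P', h1, h2, h3⟩ := ih (S \ T).card (by omega) _ _ rfl (h.sdiff T hT hc1)
      refine ⟨S', P', h1, ?_, h3⟩
      omega

/-- 1-tight sets. -/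
def Tight (L : SimpleGraph ι) (S : Finset ι) (P : Finset (Finset ι)) (T : Finset ι) : Prop :=
  T ⊆ S ∧ T.Nonempty ∧ (T.biUnion (nb L P)).card = T.card + 1

theorem union_biUnion_nb (T T' : Finset ι) :
    (T ∪ T').biUnion (nb L P) = T.biUnion (nb L P) ∪ T'.biUnion (nb L P) := by
  ext K; simp only [mem_biUnion, mem_union]; constructor
  · rintro ⟨a, h3 | h3, h4⟩
    · exact Or.inl ⟨a, h3, h4⟩
    · exact Or.inr ⟨a, h3, h4⟩
  · rintro (⟨a, h3, h4⟩ | ⟨a, h3, h4⟩)
    · exact ⟨a, Or.inl h3, h4⟩
    · exact ⟨a, Or.inr h3, h4⟩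

theorem tight_union (hs : ∀ T ⊆ S, T.Nonempty → T.card + 1 ≤ (T.biUnion (nb L P)).card)
    {T T' : Finset ι} (hT : Tight L S P T) (hT' : Tight L S P T')
    (hne : (T.biUnion (nb L P) ∩ T'.biUnion (nb L P)).Nonempty) : Tight L S P (T ∪ T') := by
  obtain ⟨h1, h2, h3⟩ := hT
  obtain ⟨h4, h5, h6⟩ := hT'
  have hsub : T ∪ T' ⊆ S := union_subset h1 h4
  have hne2 : (T ∪ T').Nonempty := h2.mono subset_union_left
  refine ⟨hsub, hne2, ?_⟩
  have h7 := hs _ hsub hne2
  have h8 := card_union_add_card_inter (T.biUnion (nb L P)) (T'.biUnion (nb L P))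
  have h9 := card_union_add_card_inter T T'
  rw [union_biUnion_nb] at h7 ⊢
  have h10 : 1 ≤ (T.biUnion (nb L P) ∩ T'.biUnion (nb L P)).card := card_pos.2 hne
  rcases (T ∩ T').eq_empty_or_nonempty with he | hne3
  · rw [he, card_empty] at h9
    omega
  · have h11 := hs (T ∩ T') (inter_subset_left.trans h1) hne3
    have h12 : (T ∩ T').biUnion (nb L P) ⊆ T.biUnion (nb L P) ∩ T'.biUnion (nb L P) := by
      refine subset_inter ?_ ?_
      · exact biUnion_subset_biUnion_of_subset_left _ inter_subset_left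
      · exact biUnion_subset_biUnion_of_subset_left _ inter_subset_right
    have h13 := card_le_card h12
    omega

theorem exists_TT (hs : ∀ T ⊆ S, T.Nonempty → T.card + 1 ≤ (T.biUnion (nb L P)).card)
    (K : Finset ι) : ∃ T : Finset ι, (T = ∅ ∨ (Tight L S P T ∧ K ∈ T.biUnion (nb L P))) ∧
      ∀ T', Tight L S P T' → K ∈ T'.biUnion (nb L P) → T' ⊆ T := by
  classical
  let F : Finset (Finset ι) := univ.filter (fun T => Tight L S P T ∧ K ∈ T.biUnion (nb L P))
  rcases F.eq_empty_or_nonempty with he | hne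
  · refine ⟨∅, Or.inl rfl, ?_⟩
    intro T' h1 h2
    have : T' ∈ F := mem_filter.2 ⟨mem_univ _, h1, h2⟩
    rw [he] at this
    simp at this
  · obtain ⟨T, hT, hmax⟩ := exists_max_image F card hne
    have hT' := (mem_filter.1 hT).2
    refine ⟨T, Or.inr hT', ?_⟩
    intro T' h1 h2
    have h3 : Tight L S P (T ∪ T') := tight_union hs hT'.1 h1 ⟨K, mem_inter.2 ⟨hT'.2, h2⟩⟩
    have h4 : K ∈ (T ∪ T').biUnion (nb L P) := by
      rw [union_biUnion_nb]; exact mem_union_left _ hT'.2
    have h5 := hmax (T ∪ T') (mem_filter.2 ⟨mem_univ _, h3, h4⟩)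
    have h6 : T = T ∪ T' := eq_of_subset_of_card_le subset_union_left h5
    rw [h6]
    exact subset_union_right

/-- The classes: any two parts in different classes can be missed simultaneously. -/
theorem exists_classes (L : SimpleGraph ι) (S : Finset ι) (P : Finset (Finset ι)) (r : ℕ)
    (h : GED L S P) (hr : P.card = S.card + r)
    (hs : ∀ T ⊆ S, T.Nonempty → T.card + 1 ≤ (T.biUnion (nb L P)).card) :
    ∃ (A : Finset ι) (C : Finset (Finset ι × Finset (Finset ι))),
      C.card = A.card + r ∧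
      (∀ c ∈ C, c.2.card = c.1.card + 1 ∧ ∀ K ∈ c.2, Odd K.card) ∧
      (∀ c ∈ C, ∀ K ∈ c.2, ∀ v ∈ K, ∀ w, L.Adj v w → w ∈ K ∨ w ∈ c.1 ∨ w ∈ A) ∧
      (A.card + ∑ c ∈ C, (c.1.card + ∑ K ∈ c.2, K.card) ≤ Fintype.card ι) ∧
      (∀ c ∈ C, ∀ c' ∈ C, c ≠ c' → ∀ K ∈ c.2, ∀ K' ∈ c'.2, ∀ v ∈ K, ∀ w ∈ K', v ≠ w ∧
        ∃ X, PM L X ∧ v ∉ X ∧ w ∉ X ∧ A ⊆ X ∧ X.card + r = Fintype.card ι) := by
  classical
  have hB := h.bar
  choose TT hTT1 hTT2 using (fun K : Finset ι => exists_TT (L := L) (S := S) (P := P) hs K)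
  let cl : Finset ι → Finset (Finset ι) := fun K => insert K ((TT K).biUnion (nb L P))
  let Φ : Finset ι → Finset ι × Finset (Finset ι) := fun K => (TT K, cl K)
  have hclP : ∀ K ∈ P, cl K ⊆ P := by
    intro K hK
    exact insert_subset hK biUnion_nb_subset
  -- members of the class have the same class
  have hΦ : ∀ K ∈ P, ∀ K' ∈ cl K, Φ K' = Φ K := by
    intro K hK K' hK'
    rcases mem_insert.1 hK' with rfl | hK'
    · rfl
    · rcases hTT1 K with he | ⟨ht, hKT⟩
      · rw [he, biUnion_empty] at hK'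
        simp at hK'
      · have h1 : TT K ⊆ TT K' := hTT2 K' _ ht hK'
        rcases hTT1 K' with he' | ⟨ht', hKT'⟩
        · exfalso
          rw [he'] at h1
          obtain ⟨z, hz⟩ := ht.2.1
          simpa using h1 hz
        · have h2 : K ∈ (TT K').biUnion (nb L P) :=
            biUnion_subset_biUnion_of_subset_left _ h1 hKT
          have h3 : TT K' ⊆ TT K := hTT2 K _ ht' h2
          have h4 : TT K' = TT K := Subset.antisymm h3 h1
          simp only [Φ, cl, h4]
          rw [insert_eq_of_mem hK', insert_eq_of_mem hKT]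
  have hmem : ∀ K, K ∈ cl K := fun K => mem_insert_self _ _
  have hΦ2 : ∀ K ∈ P, ∀ K' ∈ P, Φ K' = Φ K → K' ∈ cl K := by
    intro K hK K' hK' he
    have : cl K' = cl K := congrArg Prod.snd he
    rw [← this]; exact hmem K'
  -- cardinality of a class
  have hcard : ∀ K, (cl K).card = (TT K).card + 1 := by
    intro K
    rcases hTT1 K with he | ⟨ht, hKT⟩
    · simp [cl, he]
    · simp only [cl]
      rw [insert_eq_of_mem hKT]
      exact ht.2.2
  have hTS : ∀ K, TT K ⊆ S := by
    intro K
    rcases hTT1 K with he | ⟨ht, hKT⟩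
    · simp [he]
    · exact ht.1
  -- meeting TT's
  have hmeet : ∀ K ∈ P, ∀ K' ∈ P, ∀ t, t ∈ TT K → t ∈ TT K' → Φ K = Φ K' := by
    intro K hK K' hK' t ht ht'
    have h1 := hs {t} (by simpa using hTS K ht) (by simp)
    rw [singleton_biUnion, card_singleton] at h1
    obtain ⟨K'', hK''⟩ := card_pos.1 (show 0 < (nb L P t).card by omega)
    have h2 : K'' ∈ cl K := mem_insert_of_mem (mem_biUnion.2 ⟨t, ht, hK''⟩)
    have h3 : K'' ∈ cl K' := mem_insert_of_mem (mem_biUnion.2 ⟨t, ht', hK''⟩)
    rw [← hΦ K hK K'' h2, ← hΦ K' hK' K'' h3]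
  set C : Finset (Finset ι × Finset (Finset ι)) := P.image Φ with hC
  set A : Finset ι := S \ C.biUnion Prod.fst with hA
  have hfib : ∀ c ∈ C, P.filter (fun K => Φ K = c) = c.2 := by
    intro c hc
    obtain ⟨K, hK, rfl⟩ := mem_image.1 hc
    ext K'
    rw [mem_filter]
    constructor
    · rintro ⟨h1, h2⟩; exact hΦ2 K hK K' h1 h2
    · intro h1; exact ⟨hclP K hK h1, hΦ K hK K' h1⟩
  have hin : ∀ c ∈ C, ∀ K ∈ c.2, K ∈ P ∧ Φ K = c := by
    intro c hc K hK
    rw [← hfib c hc, mem_filter] at hK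
    exact hK
  have hc2 : ∀ c ∈ C, c.2.card = c.1.card + 1 := by
    intro c hc
    obtain ⟨K, hK, rfl⟩ := mem_image.1 hc
    exact hcard K
  have hsumP : P.card = ∑ c ∈ C, (c.1.card + 1) := by
    rw [card_eq_sum_card_image Φ P]
    refine sum_congr rfl fun c hc => ?_
    rw [hfib c hc, hc2 c hc]
  have hfst : C.biUnion Prod.fst ⊆ S := by
    refine biUnion_subset.2 fun c hc => ?_
    obtain ⟨K, hK, rfl⟩ := mem_image.1 hc
    exact hTS K
  have hsumS : (C.biUnion Prod.fst).card = ∑ c ∈ C, c.1.card := by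
    refine card_biUnion ?_
    intro c hc c' hc' hne
    obtain ⟨K, hK, rfl⟩ := mem_image.1 hc
    obtain ⟨K', hK', rfl⟩ := mem_image.1 hc'
    change Disjoint (TT K) (TT K')
    rw [disjoint_left]
    intro t ht ht'
    exact hne (hmeet K hK K' hK' t ht ht')
  have hAS : A.card + (C.biUnion Prod.fst).card = S.card := card_sdiff_add_card_eq_card hfst
  refine ⟨A, C, ?_, ?_, ?_, ?_, ?_⟩
  · rw [sum_add_distrib, sum_const, smul_eq_mul, mul_one, ← hsumS] at hsumP
    omega
  · intro c hc
    exact ⟨hc2 c hc, fun K hK => hB.odd K (hin c hc K hK).1⟩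
  · intro c hc K hK v hv w hvw
    obtain ⟨hKP, hKc⟩ := hin c hc K hK
    rcases hB.adj K hKP v hv w (mem_univ _) hvw with h1 | h1
    · exact Or.inl h1
    · right
      by_cases hwA : w ∈ A
      · exact Or.inr hwA
      · left
        have h2 : w ∈ C.biUnion Prod.fst := by
          by_contra h3
          exact hwA (mem_sdiff.2 ⟨h1, h3⟩)
        obtain ⟨c', hc', hwc'⟩ := mem_biUnion.1 h2
        obtain ⟨K', hK', rfl⟩ := mem_image.1 hc'
        have h4 : K ∈ cl K' :=
          mem_insert_of_mem (mem_biUnion.2 ⟨w, hwc', mem_nb.2 ⟨hKP, v, hv, hvw.symm⟩⟩)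
        have h5 := hΦ K' hK' K h4
        rw [← hKc, h5]
        exact hwc'
  · have h1 : ∑ c ∈ C, ∑ K ∈ c.2, K.card = ∑ K ∈ P, K.card := by
      rw [← sum_fiberwise_of_maps_to (s := P) (t := C) (g := Φ)
        (fun K hK => mem_image_of_mem _ hK)]
      refine sum_congr rfl fun c hc => ?_
      rw [hfib c hc]
    rw [sum_add_distrib, h1, ← hsumS]
    have h2 : (S ∪ P.biUnion id).card = S.card + ∑ K ∈ P, K.card := by
      rw [card_union_of_disjoint, card_biUnion]
      · rfl
      · intro A hA B hB' hne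
        exact hB.disj A hA B hB' hne
      · rw [disjoint_biUnion_right]
        intro K hK
        exact (hB.hKS K hK).symm
    have h3 : (S ∪ P.biUnion id).card ≤ Fintype.card ι := card_le_univ _
    omega
  · intro c hc c' hc' hne K hK K' hK' v hv w hw
    obtain ⟨hKP, hKc⟩ := hin c hc K hK
    obtain ⟨hKP', hKc'⟩ := hin c' hc' K' hK'
    have hKK : K ≠ K' := by
      rintro rfl
      exact hne (hKc.symm.trans hKc')
    have hvw : v ≠ w := by
      rintro rfl
      exact disjoint_left.1 (hB.disj K hKP K' hKP' hKK) hv hw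
    refine ⟨hvw, ?_⟩
    have : Nonempty ι := ⟨v⟩
    obtain ⟨x0, hx0⟩ := hB.choice
    -- the choice of missed vertices
    let x : Finset ι → ι := fun B => if B = K then v else if B = K' then w else x0 B
    have hx : ∀ B ∈ P, x B ∈ B := by
      intro B hB'
      simp only [x]
      split_ifs with h1 h2
      · rw [h1]; exact hv
      · rw [h2]; exact hw
      · exact hx0 B hB'
    have hall' : ∀ T' ⊆ S, T'.card ≤ (T'.biUnion (fun t => ((nb L P t).erase K).erase K')).card := by
      intro T' hT'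
      have h1 : T'.biUnion (fun t => ((nb L P t).erase K).erase K') =
          ((T'.biUnion (nb L P)).erase K).erase K' := by
        ext B
        simp only [mem_biUnion, mem_erase]
        constructor
        · rintro ⟨t, ht, h2, h3, h4⟩; exact ⟨h2, h3, t, ht, h4⟩
        · rintro ⟨h2, h3, t, ht, h4⟩; exact ⟨t, ht, h2, h3, h4⟩
      rw [h1]
      rcases T'.eq_empty_or_nonempty with he | hne'
      · rw [he]; simp
      have h2 := hs T' hT' hne'
      have h3 : (((T'.biUnion (nb L P)).erase K).erase K').card + 1 ≥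
          ((T'.biUnion (nb L P)).erase K).card := by
        have := pred_card_le_card_erase (s := (T'.biUnion (nb L P)).erase K) (a := K')
        omega
      have h4 : ((T'.biUnion (nb L P)).erase K).card + 1 ≥ (T'.biUnion (nb L P)).card := by
        have := pred_card_le_card_erase (s := T'.biUnion (nb L P)) (a := K)
        omega
      by_cases h5 : T'.card + 2 ≤ (T'.biUnion (nb L P)).card
      · omega
      · have ht : Tight L S P T' := ⟨hT', hne', by omega⟩
        by_cases h6 : K ∈ T'.biUnion (nb L P)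
        · by_cases h7 : K' ∈ T'.biUnion (nb L P)
          · exfalso
            have h8 : T' ⊆ TT K := hTT2 K T' ht h6
            have h9 : K' ∈ cl K :=
              mem_insert_of_mem (biUnion_subset_biUnion_of_subset_left _ h8 h7)
            exact hne (hKc.symm.trans ((hΦ K hKP K' h9).symm.trans hKc'))
          · have h8 : K' ∉ (T'.biUnion (nb L P)).erase K := fun h => h7 (mem_of_mem_erase h)
            rw [erase_eq_of_notMem h8]
            omega
        · rw [erase_eq_of_notMem h6]
          rw [erase_eq_of_notMem h6] at h3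
          omega
    obtain ⟨f, finj, hf⟩ := hall S (fun t => ((nb L P t).erase K).erase K') hall'
    have hf' : ∀ t ∈ S, f t ≠ K ∧ f t ≠ K' ∧ f t ∈ P ∧ ∃ v ∈ f t, L.Adj t v := by
      intro t ht
      have h1 := hf t ht
      simp only [mem_erase, mem_nb] at h1
      tauto
    have h1 := build S P hB.disj hB.hKS h.fc f (fun t ht => (hf' t ht).2.2) finj x hx
    have hKn : K ∈ P \ S.image f := by
      rw [mem_sdiff]; refine ⟨hKP, fun h2 => ?_⟩
      obtain ⟨t, ht, he⟩ := mem_image.1 h2
      exact (hf' t ht).1 he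
    have hKn' : K' ∈ P \ S.image f := by
      rw [mem_sdiff]; refine ⟨hKP', fun h2 => ?_⟩
      obtain ⟨t, ht, he⟩ := mem_image.1 h2
      exact (hf' t ht).2.1 he
    have hvx : v ∈ (P \ S.image f).image x := mem_image.2 ⟨K, hKn, by simp [x]⟩
    have hwx : w ∈ (P \ S.image f).image x := mem_image.2 ⟨K', hKn', by simp [x, hKK.symm]⟩
    have hsubx : (P \ S.image f).image x ⊆ P.biUnion id := by
      intro z hz
      obtain ⟨B, hB', rfl⟩ := mem_image.1 hz
      exact mem_biUnion.2 ⟨B, (mem_sdiff.1 hB').1, hx B (mem_sdiff.1 hB').1⟩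
    have hxinj : Set.InjOn x (P \ S.image f : Finset (Finset ι)) := by
      intro B hB1 B' hB2 he
      have hB1' : B ∈ P \ S.image f := hB1
      have hB2' : B' ∈ P \ S.image f := hB2
      by_contra hne'
      have h2 := hB.disj B (mem_sdiff.1 hB1').1 B' (mem_sdiff.1 hB2').1 hne'
      refine disjoint_left.1 h2 (hx B (mem_sdiff.1 hB1').1) ?_
      rw [he]; exact hx B' (mem_sdiff.1 hB2').1
    have himgS : S.image f ⊆ P := by
      intro B hB'
      obtain ⟨t, ht, rfl⟩ := mem_image.1 hB'
      exact (hf' t ht).2.2.1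
    have hcx : ((P \ S.image f).image x).card = r := by
      rw [card_image_of_injOn hxinj, card_sdiff_of_subset himgS, card_image_of_injOn finj]
      omega
    have hunion : univ \ (P \ S.image f).image x =
        ((S ∪ P.biUnion id) \ (P \ S.image f).image x) ∪ (univ \ (S ∪ P.biUnion id)) := by
      ext z
      simp only [mem_sdiff, mem_univ, true_and, mem_union (s := (S ∪ P.biUnion id) \ _)]
      constructor
      · intro h2
        by_cases h3 : z ∈ S ∪ P.biUnion id
        · exact Or.inl ⟨h3, h2⟩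
        · exact Or.inr h3
      · rintro (h2 | h2)
        · exact h2.2
        · intro h3
          exact h2 (mem_union_right _ (hsubx h3))
    refine ⟨univ \ (P \ S.image f).image x, ?_, ?_, ?_, ?_, ?_⟩
    · rw [hunion]
      refine h1.union h.rest ?_
      rw [disjoint_left]
      intro z hz hz2
      exact (mem_sdiff.1 hz2).2 (mem_sdiff.1 hz).1
    · simp only [mem_sdiff, mem_univ, true_and, not_not]; exact hvx
    · simp only [mem_sdiff, mem_univ, true_and, not_not]; exact hwx
    · intro z hz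
      refine mem_sdiff.2 ⟨mem_univ _, fun h2 => ?_⟩
      obtain ⟨B, hB', hzB⟩ := mem_biUnion.1 (hsubx h2)
      exact disjoint_left.1 (hB.hKS B hB') hzB (mem_sdiff.1 hz).1
    · rw [card_sdiff_of_subset (subset_univ _), hcx, card_univ]
      have : ((P \ S.image f).image x).card ≤ Fintype.card ι := card_le_univ _
      omega

end H61P4
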