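import Pool.Agent.H61.P4.Swap

/-!
Counting lemmas for the classes of the core theorem.
-/

namespace H61P4

set_option linter.unusedSectionVars false

open Finset

variable {ι : Type*} [DecidableEq ι] [Fintype ι] {V : Type*} [Fintype V] [DecidableEq V]
variable {G : SimpleGraph V} {φ : ι × Bool ≃ V}

/-- All vertices have at least `D` neighbours. -/
def MinDeg (G : SimpleGraph V) (D : ℕ) : Prop := ∀ v, D ≤ (G.neighborSet v).ncard

theorem MinDeg.link {D : ℕ} (hD : MinDeg G D) (i : ι) (T : Finset ι)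
    (hT : ∀ j, (lk G φ).Adj i j → j ∈ T) : D ≤ 2 * T.card + 1 := by
  have h1 := hD (φ (i, false))
  have h2 : G.neighborSet (φ (i, false)) ⊆
      ((insert (φ (i, true)) ((T ×ˢ (univ : Finset Bool)).image φ) : Finset V) : Set V) := by
    intro x hx
    rw [SimpleGraph.mem_neighborSet] at hx
    obtain ⟨⟨j, s⟩, rfl⟩ := φ.surjective x
    simp only [coe_insert, coe_image, Set.mem_insert_iff, Set.mem_image]
    by_cases hj : j = i
    · subst hj
      cases s
      · exact absurd rfl hx.ne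
      · exact Or.inl rfl
    · right
      refine ⟨(j, s), ?_, rfl⟩
      simp only [coe_product, coe_univ, Set.mem_prod, mem_coe, Set.mem_univ, and_true]
      exact hT j ⟨fun h => hj h.symm, false, s, hx⟩
  have h3 := Set.ncard_le_ncard h2 (finite_toSet _)
  rw [Set.ncard_coe_finset] at h3
  have h4 : (insert (φ (i, true)) ((T ×ˢ (univ : Finset Bool)).image φ)).card ≤ T.card * 2 + 1 := by
    refine (card_insert_le _ _).trans ?_
    have := card_image_le (s := T ×ˢ (univ : Finset Bool)) (f := φ)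
    rw [card_product] at this
    simpa using this
  omega

open Classical in
theorem MinDeg.cross {D : ℕ} (hD : MinDeg G D) (w : ι) (A : Finset ι)
    (hA : ∀ j, (lk G φ).Adj w j → j ∈ A) :
    D ≤ A.card + 1 + (A.filter (fun a => Cross G φ w a)).card := by
  have key : ∀ s : Bool, D ≤ 1 + ∑ a ∈ A, ((if G.Adj (φ (w, s)) (φ (a, false)) then 1 else 0) +
      (if G.Adj (φ (w, s)) (φ (a, true)) then 1 else 0)) := by
    intro s
    have h1 := hD (φ (w, s))
    let B : ι → Finset V := fun a =>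
      (if G.Adj (φ (w, s)) (φ (a, false)) then {φ (a, false)} else ∅) ∪
      (if G.Adj (φ (w, s)) (φ (a, true)) then {φ (a, true)} else ∅)
    have h2 : G.neighborSet (φ (w, s)) ⊆
        ((insert (φ (w, !s)) (A.biUnion B) : Finset V) : Set V) := by
      intro x hx
      rw [SimpleGraph.mem_neighborSet] at hx
      obtain ⟨⟨j, t⟩, rfl⟩ := φ.surjective x
      simp only [coe_insert, coe_biUnion, Set.mem_insert_iff, Set.mem_iUnion]
      by_cases hj : j = w
      · subst hj
        left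
        have : t = !s := by
          cases s <;> cases t <;> simp_all
        rw [this]
      · right
        refine ⟨j, hA j ⟨fun h => hj h.symm, s, t, hx⟩, ?_⟩
        cases t <;> simp [B, hx]
    have h3 := Set.ncard_le_ncard h2 (finite_toSet _)
    rw [Set.ncard_coe_finset] at h3
    have h4 := card_insert_le (φ (w, !s)) (A.biUnion B)
    have h5 : (A.biUnion B).card ≤ ∑ a ∈ A, (B a).card := card_biUnion_le
    have h6 : ∑ a ∈ A, (B a).card ≤ ∑ a ∈ A, ((if G.Adj (φ (w, s)) (φ (a, false)) then 1 else 0) +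
      (if G.Adj (φ (w, s)) (φ (a, true)) then 1 else 0)) := by
      refine sum_le_sum fun a ha => ?_
      refine (card_union_le _ _).trans ?_
      refine Nat.add_le_add ?_ ?_ <;> split_ifs <;> simp
    omega
  have h1 := key false
  have h2 := key true
  have h3 : ∑ a ∈ A, ((if G.Adj (φ (w, false)) (φ (a, false)) then 1 else 0) +
      (if G.Adj (φ (w, false)) (φ (a, true)) then 1 else 0)) +
      ∑ a ∈ A, ((if G.Adj (φ (w, true)) (φ (a, false)) then 1 else 0) +
      (if G.Adj (φ (w, true)) (φ (a, true)) then 1 else 0)) ≤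
      ∑ a ∈ A, (2 + if Cross G φ w a then 2 else 0) := by
    rw [← sum_add_distrib]
    refine sum_le_sum fun a ha => ?_
    by_cases hc : Cross G φ w a
    · rw [if_pos hc]
      split_ifs <;> simp
    · rw [if_neg hc]
      have h4 : ¬ (G.Adj (φ (w, false)) (φ (a, false)) ∧ G.Adj (φ (w, true)) (φ (a, true))) :=
        fun h => hc ⟨false, h⟩
      have h5 : ¬ (G.Adj (φ (w, false)) (φ (a, true)) ∧ G.Adj (φ (w, true)) (φ (a, false))) :=
        fun h => hc ⟨true, h⟩
      by_cases a1 : G.Adj (φ (w, false)) (φ (a, false)) <;>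
      by_cases a2 : G.Adj (φ (w, false)) (φ (a, true)) <;>
      by_cases a3 : G.Adj (φ (w, true)) (φ (a, false)) <;>
      by_cases a4 : G.Adj (φ (w, true)) (φ (a, true)) <;> simp_all
  have h6 : ∑ a ∈ A, (2 + if Cross G φ w a then 2 else 0) =
      A.card * 2 + (A.filter (fun a => Cross G φ w a)).card * 2 := by
    rw [sum_add_distrib, sum_const, smul_eq_mul, ← sum_filter, sum_const, smul_eq_mul]
  omega

/-- The data of the core theorem. -/
structure CoreData (G : SimpleGraph V) (φ : ι × Bool ≃ V) (A : Finset ι)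
    (C : Finset (Finset ι × Finset (Finset ι))) : Prop where
  card_ge : A.card + 2 ≤ C.card
  odd : ∀ c ∈ C, c.2.card = c.1.card + 1 ∧ ∀ K ∈ c.2, Odd K.card
  nbr : ∀ c ∈ C, ∀ K ∈ c.2, ∀ v ∈ K, ∀ w, (lk G φ).Adj v w → w ∈ K ∨ w ∈ c.1 ∨ w ∈ A
  total : A.card + ∑ c ∈ C, (c.1.card + ∑ K ∈ c.2, K.card) ≤ Fintype.card ι
  cross : ∀ c ∈ C, ∀ c' ∈ C, c ≠ c' → ∀ K ∈ c.2, ∀ K' ∈ c'.2, ∀ v ∈ K, ∀ w ∈ K', v ≠ w ∧
        v ∉ A ∧ ∀ a ∈ A, ¬ (Cross G φ v a ∧ Cross G φ w a)

/-- The size of a class. -/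
def qq (c : Finset ι × Finset (Finset ι)) : ℕ := c.1.card + ∑ K ∈ c.2, K.card

variable {A : Finset ι} {C : Finset (Finset ι × Finset (Finset ι))}

theorem CoreData.part_ge (h : CoreData G φ A C) {D : ℕ} (hD : MinDeg G D) {c} (hc : c ∈ C) {K}
    (hK : K ∈ c.2) : D + 1 ≤ 2 * (K.card + c.1.card + A.card) := by
  have hodd := (h.odd c hc).2 K hK
  obtain ⟨v, hv⟩ := card_pos.1 (show 0 < K.card by rcases hodd with ⟨k, hk⟩; omega)
  have h1 := hD.link (φ := φ) v ((K.erase v) ∪ c.1 ∪ A) (by
    intro j hj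
    rcases h.nbr c hc K hK v hv j hj with h1 | h1 | h1
    · have : j ≠ v := fun h => hj.ne h.symm
      simp [h1, this]
    · simp [h1]
    · simp [h1])
  have h2 : ((K.erase v) ∪ c.1 ∪ A).card ≤ (K.card - 1) + c.1.card + A.card := by
    refine (card_union_le _ _).trans (Nat.add_le_add_right ?_ _)
    refine (card_union_le _ _).trans (Nat.add_le_add_right ?_ _)
    rw [card_erase_of_mem hv]
  have h3 : 1 ≤ K.card := card_pos.2 ⟨v, hv⟩
  omega

theorem CoreData.nonempty (h : CoreData G φ A C) {c} (hc : c ∈ C) : ∃ K, K ∈ c.2 := by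
  have := (h.odd c hc).1
  exact card_pos.1 (by omega)

theorem CoreData.part_le (_h : CoreData G φ A C) {c} (_hc : c ∈ C) {K} (hK : K ∈ c.2) :
    K.card + c.1.card ≤ qq c := by
  have : K.card ≤ ∑ K ∈ c.2, K.card := single_le_sum (fun _ _ => Nat.zero_le _) hK
  unfold qq
  omega

theorem CoreData.class_ge (h : CoreData G φ A C) {D : ℕ} (hD : MinDeg G D) {c} (hc : c ∈ C) :
    D / 2 + 1 ≤ qq c + A.card := by
  obtain ⟨K, hK⟩ := h.nonempty hc
  have h1 := h.part_ge hD hc hK
  have h2 := h.part_le hc hK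
  omega

theorem CoreData.class_odd (h : CoreData G φ A C) {c} (hc : c ∈ C) : Odd (qq c) := by
  have h1 := odd_sum c.2 (h.odd c hc).2
  have h2 := (h.odd c hc).1
  unfold qq
  rw [h2] at h1
  rcases h1 with ⟨k, hk⟩
  rw [Nat.odd_iff]
  omega

/-- Nontrivial classes are large. -/
theorem CoreData.class_big (h : CoreData G φ A C) {D : ℕ} (hD : MinDeg G D) {c} (hc : c ∈ C)
    (hne : c.1.Nonempty) : 2 * (D / 2 - A.card) + 1 ≤ qq c := by
  have ha : 1 ≤ c.1.card := card_pos.2 hne
  set a := c.1.card with hadef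
  have h1 : ∀ K ∈ c.2, max 1 (D / 2 + 1 - a - A.card) ≤ K.card := by
    intro K hK
    have h1 := h.part_ge hD hc hK
    have hodd := (h.odd c hc).2 K hK
    have h2 : 1 ≤ K.card := by rcases hodd with ⟨k, hk⟩; omega
    refine max_le h2 ?_
    omega
  have h2 := card_nsmul_le_sum c.2 (fun K => K.card) _ h1
  rw [(h.odd c hc).1, smul_eq_mul, ← hadef] at h2
  unfold qq
  rw [← hadef]
  set d' := D / 2 - A.card with hd'
  rcases le_or_gt d' a with hle | hlt
  · have h3 : (a + 1) * 1 ≤ (a + 1) * max 1 (D / 2 + 1 - a - A.card) :=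
      Nat.mul_le_mul_left _ (le_max_left _ _)
    omega
  · have h3 : (a + 1) * (d' + 1 - a) ≤ (a + 1) * max 1 (D / 2 + 1 - a - A.card) := by
      refine Nat.mul_le_mul_left _ (le_trans ?_ (le_max_right _ _))
      omega
    obtain ⟨b, hb⟩ := Nat.exists_eq_add_of_lt hlt
    have h4 : d' + 1 - a = b + 2 := by omega
    rw [h4] at h3
    have h5 : 2 * d' + 1 ≤ a + (a + 1) * (b + 2) := by
      rw [hb]
      nlinarith
    omega

/-- The pigeonhole step: few singleton classes, if every vertex has many neighbours. -/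
theorem CoreData.pigeon (h : CoreData G φ A C) {D : ℕ} (hD : MinDeg G D) :
    (C.filter (fun c => qq c = 1)).card * (D - 1 - A.card) ≤ A.card := by
  classical
  have hsing : ∀ c ∈ C.filter (fun c => qq c = 1), ∃ K ∈ c.2, ∃ w, K = {w} ∧ c.1 = ∅ := by
    intro c hc
    obtain ⟨hcC, hq⟩ := mem_filter.1 hc
    obtain ⟨K, hK⟩ := h.nonempty hcC
    have h1 := h.part_le hcC hK
    have hodd := (h.odd c hcC).2 K hK
    have h2 : 1 ≤ K.card := by rcases hodd with ⟨k, hk⟩; omega
    have h3 : K.card = 1 := by omega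
    obtain ⟨w, hw⟩ := card_eq_one.1 h3
    refine ⟨K, hK, w, hw, ?_⟩
    exact card_eq_zero.1 (by omega)
  rcases isEmpty_or_nonempty ι with he | hne
  · have : C.filter (fun c => qq c = 1) = ∅ := by
      by_contra hcon
      obtain ⟨c, hc⟩ := nonempty_iff_ne_empty.2 hcon
      obtain ⟨K, -, w, -⟩ := hsing c hc
      exact he.elim w
    rw [this]; simp
  choose! K hK w hKw hc1 using hsing
  set Y := C.filter (fun c => qq c = 1) with hY
  have hcr : ∀ c ∈ Y, D - 1 - A.card ≤ (A.filter (fun a => Cross G φ (w c) a)).card := by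
    intro c hc
    have hcC := (mem_filter.1 hc).1
    have h1 := hD.cross (φ := φ) (w c) A (by
      intro j hj
      have hwK : w c ∈ K c := by rw [hKw c hc]; simp
      rcases h.nbr c hcC (K c) (hK c hc) (w c) hwK j hj with h2 | h2 | h2
      · rw [hKw c hc, mem_singleton] at h2
        exact absurd h2.symm hj.ne
      · rw [hc1 c hc] at h2
        simp at h2
      · exact h2)
    omega
  calc Y.card * (D - 1 - A.card) = ∑ c ∈ Y, (D - 1 - A.card) := by rw [sum_const, smul_eq_mul]
    _ ≤ ∑ c ∈ Y, (A.filter (fun a => Cross G φ (w c) a)).card := sum_le_sum hcr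
    _ = ∑ c ∈ Y, ∑ a ∈ A, (if Cross G φ (w c) a then 1 else 0) := by
        refine sum_congr rfl fun c hc => ?_
        rw [card_filter]
    _ = ∑ a ∈ A, ∑ c ∈ Y, (if Cross G φ (w c) a then 1 else 0) := sum_comm
    _ ≤ ∑ a ∈ A, 1 := by
        refine sum_le_sum fun a ha => ?_
        rw [← card_filter]
        rw [card_le_one]
        intro c hc c' hc'
        obtain ⟨hcY, hcc⟩ := mem_filter.1 hc
        obtain ⟨hcY', hcc'⟩ := mem_filter.1 hc'
        by_contra hne'
        have hwK : w c ∈ K c := by rw [hKw c hcY]; simp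
        have hwK' : w c' ∈ K c' := by rw [hKw c' hcY']; simp
        exact (h.cross c (mem_filter.1 hcY).1 c' (mem_filter.1 hcY').1 hne' (K c) (hK c hcY) (K c')
          (hK c' hcY') (w c) hwK (w c') hwK').2.2 a ha ⟨hcc, hcc'⟩
    _ = A.card := by simp

/-- Counting the singleton classes. -/
theorem CoreData.single_ge (h : CoreData G φ A C) :
    4 * A.card + 6 ≤ Fintype.card ι + 2 * (C.filter (fun c => qq c = 1)).card := by
  have h1 := h.total
  have h2 := h.card_ge
  have h3 : 3 * C.card ≤ ∑ c ∈ C, qq c + 2 * (C.filter (fun c => qq c = 1)).card := by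
    have h4 : ∑ c ∈ C, 3 ≤ ∑ c ∈ C, (qq c + if qq c = 1 then 2 else 0) := by
      refine sum_le_sum fun c hc => ?_
      have := h.class_odd hc
      split_ifs with h5
      · omega
      · rcases this with ⟨k, hk⟩; omega
    rw [sum_const, smul_eq_mul, sum_add_distrib, ← sum_filter, sum_const, smul_eq_mul] at h4
    omega
  have h5 : ∑ c ∈ C, (c.1.card + ∑ K ∈ c.2, K.card) = ∑ c ∈ C, qq c := rfl
  omega

theorem CoreData.card_le (h : CoreData G φ A C) : 2 * A.card + 2 ≤ Fintype.card ι := by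
  have h1 := h.total
  have h2 := h.card_ge
  have h4 : ∑ c ∈ C, 1 ≤ ∑ c ∈ C, qq c := by
    refine sum_le_sum fun c hc => ?_
    have := h.class_odd hc
    rcases this with ⟨k, hk⟩; omega
  rw [sum_const, smul_eq_mul] at h4
  have h5 : ∑ c ∈ C, (c.1.card + ∑ K ∈ c.2, K.card) = ∑ c ∈ C, qq c := rfl
  omega

/-- If all classes have size at least `m`. -/
theorem CoreData.total_ge (h : CoreData G φ A C) (m : ℕ) (hm : ∀ c ∈ C, m ≤ qq c) :
    A.card + (A.card + 2) * m ≤ Fintype.card ι := by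
  have h1 := h.total
  have h2 := h.card_ge
  have h4 : ∑ c ∈ C, m ≤ ∑ c ∈ C, qq c := sum_le_sum hm
  rw [sum_const, smul_eq_mul] at h4
  have h5 : ∑ c ∈ C, (c.1.card + ∑ K ∈ c.2, K.card) = ∑ c ∈ C, qq c := rfl
  have h6 : (A.card + 2) * m ≤ C.card * m := Nat.mul_le_mul_right _ h2
  omega

end H61P4
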