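import Pool.Agent.H61.P4.Classes

/-!
The easy inequality between matchings and barriers; the combined structure theorem.
-/

namespace H61P4

set_option linter.unusedSectionVars false

open Finset

variable {ι : Type*} [DecidableEq ι] [Fintype ι]
variable {L : SimpleGraph ι} {P : Finset (Finset ι)} {S : Finset ι}

theorem PM.exists_fun {X : Finset ι} (h : PM L X) :
    ∃ m : ι → ι, ∀ i ∈ X, m i ∈ X ∧ m (m i) = i ∧ L.Adj i (m i) := by
  induction h with
  | nil => exact ⟨id, by simp⟩
  | @cons a b X hab ha hb h ih =>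
    obtain ⟨m, hm⟩ := ih
    refine ⟨fun i => if i = a then b else if i = b then a else m i, ?_⟩
    intro i hi
    have hne : b ≠ a := hab.ne'
    rcases mem_insert.1 hi with rfl | hi1
    · simp [hne, hab]
    rcases mem_insert.1 hi1 with rfl | hi2
    · simp [hne, hab.symm]
    · have h1 : i ≠ a := fun h => ha (h ▸ hi2)
      have h2 : i ≠ b := fun h => hb (h ▸ hi2)
      obtain ⟨h3, h4, h5⟩ := hm i hi2
      have h6 : m i ≠ a := by intro h; rw [h] at h3; exact ha h3
      have h7 : m i ≠ b := by intro h; rw [h] at h3; exact hb h3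
      simp only [h1, h2, h6, h7, if_false]
      exact ⟨by simp [h3], h4, h5⟩

theorem card_le_of_bar (hB : Bar L univ S P) {X : Finset ι} (h : PM L X) :
    X.card + P.card ≤ Fintype.card ι + S.card := by
  classical
  obtain ⟨m, hm⟩ := h.exists_fun
  have hx : ∀ K ∈ P, ∃ x, x ∈ K ∧ (x ∈ X → m x ∈ S) := by
    intro K hK
    by_contra hcon
    push Not at hcon
    have hPM : PM L K := by
      refine PM.of_fun K m ?_
      intro i hi
      obtain ⟨h1, h2⟩ := hcon i hi
      obtain ⟨h3, h4, h5⟩ := hm i h1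
      refine ⟨?_, h4, h5⟩
      exact (hB.adj K hK i hi (m i) (mem_univ _) h5).resolve_right h2
    have := hPM.even
    exact (Nat.not_even_iff_odd.2 (hB.odd K hK)) this
  rcases isEmpty_or_nonempty ι with he | hne
  · have h1 : X = ∅ := eq_empty_of_isEmpty X
    have h2 : P = ∅ := by
      by_contra h3
      obtain ⟨K, hK⟩ := nonempty_iff_ne_empty.2 h3
      obtain ⟨x, -⟩ := hx K hK
      exact he.elim x
    simp [h1, h2]
  choose! x hxK hxX using hx
  have hinj : ∀ K ∈ P, ∀ K' ∈ P, x K = x K' → K = K' := by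
    intro K hK K' hK' he
    by_contra hne'
    exact disjoint_left.1 (hB.disj K hK K' hK' hne') (hxK K hK) (he ▸ hxK K' hK')
  have h1 : (P.filter (fun K => x K ∉ X)).card ≤ (univ \ X).card := by
    refine card_le_card_of_injOn x ?_ ?_
    · intro K hK
      have hK' := mem_filter.1 (mem_coe.1 hK)
      simp [hK'.2]
    · intro K hK K' hK' he
      exact hinj K (mem_filter.1 (mem_coe.1 hK)).1 K' (mem_filter.1 (mem_coe.1 hK')).1 he
  have h2 : (P.filter (fun K => ¬ x K ∉ X)).card ≤ S.card := by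
    refine card_le_card_of_injOn (fun K => m (x K)) ?_ ?_
    · intro K hK
      have hK' := mem_filter.1 (mem_coe.1 hK)
      exact mem_coe.2 (hxX K hK'.1 (not_not.1 hK'.2))
    · intro K hK K' hK' he
      have hK1 := mem_filter.1 (mem_coe.1 hK)
      have hK1' := mem_filter.1 (mem_coe.1 hK')
      refine hinj K hK1.1 K' hK1'.1 ?_
      have h3 := (hm _ (not_not.1 hK1.2)).2.1
      have h4 := (hm _ (not_not.1 hK1'.2)).2.1
      rw [← h3, ← h4]
      exact congrArg m he
  have h3 := card_filter_add_card_filter_not (s := P) (fun K => x K ∉ X)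
  have h4 : (univ \ X).card + X.card = Fintype.card ι := by
    rw [card_sdiff_add_card_eq_card (subset_univ _), card_univ]
  omega

/-- The combined structure theorem. If a maximum matching of `L` covers the set `X₀`, with
`|X₀| + r = |ι|` and `r ≥ 1`, there are a set `A` and `|A| + r` classes of parts as in
`exists_classes`. -/
theorem structure_thm (L : SimpleGraph ι) (k : ℕ) (hk : ∃ X, PM L X ∧ X.card = k)
    (hmax : ∀ X, PM L X → X.card ≤ k) :
    ∃ (r : ℕ) (A : Finset ι) (C : Finset (Finset ι × Finset (Finset ι))),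
      k + r = Fintype.card ι ∧
      C.card = A.card + r ∧
      (∀ c ∈ C, c.2.card = c.1.card + 1 ∧ ∀ K ∈ c.2, Odd K.card) ∧
      (∀ c ∈ C, ∀ K ∈ c.2, ∀ v ∈ K, ∀ w, L.Adj v w → w ∈ K ∨ w ∈ c.1 ∨ w ∈ A) ∧
      (A.card + ∑ c ∈ C, (c.1.card + ∑ K ∈ c.2, K.card) ≤ Fintype.card ι) ∧
      (∀ c ∈ C, ∀ c' ∈ C, c ≠ c' → ∀ K ∈ c.2, ∀ K' ∈ c'.2, ∀ v ∈ K, ∀ w ∈ K', v ≠ w ∧
        ∃ X, PM L X ∧ v ∉ X ∧ w ∉ X ∧ A ⊆ X ∧ X.card + r = Fintype.card ι) := by
  obtain ⟨S0, P0, h0⟩ := exists_GED L
  obtain ⟨S, P, h, hcard, hs⟩ := exists_surplus _ S0 P0 rfl h0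
  have hle : S.card ≤ P.card := (h.hall S (Subset.refl _)).trans (card_le_card biUnion_nb_subset)
  obtain ⟨r, hr⟩ := Nat.exists_eq_add_of_le hle
  obtain ⟨A, C, h1, h2, h3, h4, h5⟩ := exists_classes L S P r h hr hs
  refine ⟨r, A, C, ?_, h1, h2, h3, h4, h5⟩
  -- k + r = card
  obtain ⟨X0, hX0, hX0k⟩ := hk
  have h6 := card_le_of_bar h.bar hX0
  have h7 : Fintype.card ι ≤ k + r := by
    -- a matching missing exactly r vertices
    rcases isEmpty_or_nonempty ι with he | hne
    · simp
    obtain ⟨x, hx⟩ := h.bar.choice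
    obtain ⟨f, finj, hf⟩ := H61P4.hall S (nb L P) h.hall
    have hb := build S P h.bar.disj h.bar.hKS h.fc f (fun t ht => mem_nb.1 (hf t ht)) finj x hx
    have hu := hb.union h.rest (by
      rw [disjoint_left]
      intro z hz hz2
      exact (mem_sdiff.1 hz2).2 (mem_sdiff.1 hz).1)
    have h8 := hmax _ hu
    have h9 : (univ \ (P \ S.image f).image x) ⊆
        (((S ∪ P.biUnion id) \ (P \ S.image f).image x) ∪ (univ \ (S ∪ P.biUnion id))) := by
      intro z hz
      by_cases h3 : z ∈ S ∪ P.biUnion id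
      · exact mem_union_left _ (mem_sdiff.2 ⟨h3, (mem_sdiff.1 hz).2⟩)
      · exact mem_union_right _ (mem_sdiff.2 ⟨mem_univ _, h3⟩)
    have h10 := card_le_card h9
    have himgS : S.image f ⊆ P := by
      intro B hB'
      obtain ⟨t, ht, rfl⟩ := mem_image.1 hB'
      exact nb_subset (hf t ht)
    have h11 : ((P \ S.image f).image x).card ≤ r := by
      refine card_image_le.trans ?_
      rw [card_sdiff_of_subset himgS, card_image_of_injOn finj]
      omega
    have h12 : (univ \ (P \ S.image f).image x).card + ((P \ S.image f).image x).card =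
        Fintype.card ι := by
      rw [card_sdiff_add_card_eq_card (subset_univ _), card_univ]
    omega
  omega

end H61P4
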