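import Pool.Agent.H61.P4.Count

/-!
Factors, perfect matchings and components.
-/

namespace H61P4

open Finset

/-- `G` has an `H`-factor: pairwise vertex-disjoint copies of `H` in `G` (the `i`-th copy is
`a ↦ e (i, a)`) which together cover all vertices of `G`. -/
def HasFactor {W V : Type*} (H : SimpleGraph W) (G : SimpleGraph V) : Prop :=
  ∃ (m : ℕ) (e : Fin m × W ≃ V), ∀ i a b, H.Adj a b → G.Adj (e (i, a)) (e (i, b))

theorem PM.exists_pairs {ι : Type*} [DecidableEq ι] {L : SimpleGraph ι} {X : Finset ι}
    (h : PM L X) : ∃ (m : ℕ) (e : Fin m × Bool → ι), Function.Injective e ∧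
      (∀ x, x ∈ X ↔ ∃ y, e y = x) ∧ ∀ i, L.Adj (e (i, false)) (e (i, true)) := by
  induction h with
  | nil => exact ⟨0, fun x => x.1.elim0, fun x => x.1.elim0, by simp, fun i => i.elim0⟩
  | @cons a b X hab ha hb h ih =>
    obtain ⟨m, e, he, hX, hadj⟩ := ih
    have hne : a ≠ b := hab.ne
    refine ⟨m + 1, fun x => Fin.cases (motive := fun _ => ι) (if x.2 then b else a)
      (fun i => e (i, x.2)) x.1, ?_, ?_, ?_⟩
    · rintro ⟨i, s⟩ ⟨j, t⟩ hij
      have hmem : ∀ i s, e (i, s) ∈ X := fun i s => (hX _).2 ⟨_, rfl⟩
      induction i using Fin.cases with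
      | zero =>
        induction j using Fin.cases with
        | zero =>
          simp only [Fin.cases_zero] at hij
          cases s <;> cases t <;> simp_all
        | succ j =>
          exfalso
          simp only [Fin.cases_zero, Fin.cases_succ] at hij
          have := hmem j t
          rw [← hij] at this
          cases s <;> simp_all
      | succ i =>
        induction j using Fin.cases with
        | zero =>
          exfalso
          simp only [Fin.cases_zero, Fin.cases_succ] at hij
          have := hmem i s
          rw [hij] at this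
          cases t <;> simp_all
        | succ j =>
          simp only [Fin.cases_succ] at hij
          have := he hij
          simp_all
    · intro x
      constructor
      · intro hx
        rcases mem_insert.1 hx with rfl | hx
        · exact ⟨(0, false), by simp⟩
        · rcases mem_insert.1 hx with rfl | hx
          · exact ⟨(0, true), by simp⟩
          · obtain ⟨⟨i, s⟩, rfl⟩ := (hX x).1 hx
            exact ⟨(i.succ, s), by simp⟩
      · rintro ⟨⟨i, s⟩, rfl⟩
        induction i using Fin.cases with
        | zero => cases s <;> simp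
        | succ i =>
          have := (hX _).2 ⟨(i, s), rfl⟩
          simp [this]
    · intro i
      induction i using Fin.cases with
      | zero => simpa using hab
      | succ i => simpa using hadj i

/-- From a fixed point free involution along edges to a pairing. -/
theorem exists_matched {V : Type*} [Fintype V] [DecidableEq V] {G : SimpleGraph V}
    (h : PM G univ) : ∃ (m : ℕ) (φ : Fin m × Bool ≃ V), Matched G φ := by
  obtain ⟨m, e, he, hX, hadj⟩ := h.exists_pairs
  refine ⟨m, Equiv.ofBijective e ⟨he, fun x => (hX x).1 (mem_univ _)⟩, ?_⟩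
  intro i
  exact hadj i

/-- A Mathlib perfect matching gives `PM G univ`. -/
theorem PM.of_perfect {V : Type*} [Fintype V] [DecidableEq V] {G : SimpleGraph V}
    (M : G.Subgraph) (hM : M.IsPerfectMatching) : PM G univ := by
  have h1 : ∀ v : V, ∃! w, M.Adj v w := fun v => hM.1 (hM.2 v)
  choose m hm hm2 using h1
  refine PM.of_fun univ m ?_
  intro i _
  refine ⟨mem_univ _, ?_, (hm i).adj_sub⟩
  exact (hm2 (m i) i (hm i).symm).symm

/-- An involution along edges gives a Mathlib perfect matching. -/
theorem perfect_of_fun {V : Type*} {G : SimpleGraph V} (m : V → V) (h1 : ∀ v, m (m v) = v)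
    (h2 : ∀ v, G.Adj v (m v)) : ∃ M : G.Subgraph, M.IsPerfectMatching := by
  refine ⟨{ verts := Set.univ
            Adj := fun u v => v = m u
            adj_sub := ?_
            edge_vert := fun _ => Set.mem_univ _
            symm := ⟨?_⟩ }, ?_, ?_⟩
  · rintro u v rfl
    exact h2 u
  · rintro u v rfl
    exact (h1 u).symm
  · intro v _
    exact ⟨m v, rfl, fun w hw => hw⟩
  · intro v
    exact Set.mem_univ v

/-- A set closed under adjacency has order divisible by `4` if all components do. -/
theorem dvd_of_closed {V : Type*} [Fintype V] [DecidableEq V] {G : SimpleGraph V} {k : ℕ}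
    (hG : ∀ c : G.ConnectedComponent, k ∣ c.supp.ncard) (U : Finset V)
    (hU : ∀ u ∈ U, ∀ w, G.Adj u w → w ∈ U) : k ∣ U.card := by
  classical
  have hreach : ∀ u ∈ U, ∀ w, G.Reachable u w → w ∈ U := by
    intro u hu w huw
    obtain ⟨p⟩ := huw
    induction p with
    | nil => exact hu
    | cons hadj p ih => exact ih (hU _ hu _ hadj)
  rw [card_eq_sum_card_image (fun u => G.connectedComponentMk u) U]
  refine dvd_sum fun c hc => ?_
  obtain ⟨u, hu, rfl⟩ := mem_image.1 hc
  have h1 : ((U.filter (fun a => G.connectedComponentMk a = G.connectedComponentMk u) : Finset V) :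
      Set V) = (G.connectedComponentMk u).supp := by
    ext w
    simp only [coe_filter, Set.mem_ofPred_eq, SimpleGraph.ConnectedComponent.mem_supp_iff]
    constructor
    · exact fun h => h.2
    · intro h
      refine ⟨hreach u hu w ?_, h⟩
      exact (SimpleGraph.ConnectedComponent.exact h).symm
  have h2 := hG (G.connectedComponentMk u)
  rw [← h1, Set.ncard_coe_finset] at h2
  exact h2

/-- A perfect matching of the link graph gives a `P₄`-factor. -/
theorem hasFactor_of_link {ι V : Type*} [Fintype ι] [DecidableEq ι] {G : SimpleGraph V}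
    (φ : ι × Bool ≃ V) (hφ : Matched G φ) (h : PM (lk G φ) univ) :
    HasFactor (SimpleGraph.pathGraph 4) G := by
  obtain ⟨m, e, he, hX, hadj⟩ := h.exists_pairs
  have h1 : ∀ t : Fin m, ∃ p q, G.Adj (φ (e (t, false), p)) (φ (e (t, true), q)) :=
    fun t => (hadj t).2
  choose p q hpq using h1
  -- the four vertices of the path
  let s : Fin m → Fin 4 → Bool := fun t k => ![!(p t), p t, q t, !(q t)] k
  let b : Fin 4 → Bool := ![false, false, true, true]
  let E : Fin m × Fin 4 → V := fun x => φ (e (x.1, b x.2), s x.1 x.2)
  have hE : Function.Bijective E := by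
    constructor
    · rintro ⟨t, k⟩ ⟨t', k'⟩ hx
      have h2 := φ.injective hx
      rw [Prod.mk.injEq] at h2
      obtain ⟨h3, h4⟩ := h2
      have h5 := he h3
      rw [Prod.mk.injEq] at h5
      obtain ⟨h5, h6⟩ := h5
      simp only at h5
      subst h5
      simp only [Prod.mk.injEq, true_and]
      simp only [s, b] at h4 h6
      fin_cases k <;> fin_cases k' <;> simp_all
    · intro v
      obtain ⟨⟨i, r⟩, rfl⟩ := φ.surjective v
      obtain ⟨⟨t, c⟩, rfl⟩ := (hX i).1 (mem_univ _)
      cases c
      · by_cases hr : r = p t
        · exact ⟨(t, 1), by simp [E, s, b, hr]⟩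
        · refine ⟨(t, 0), ?_⟩
          have : r = !(p t) := by
            revert hr; cases r <;> cases p t <;> simp
          simp [E, s, b, this]
      · by_cases hr : r = q t
        · exact ⟨(t, 2), by simp [E, s, b, hr]⟩
        · refine ⟨(t, 3), ?_⟩
          have : r = !(q t) := by
            revert hr; cases r <;> cases q t <;> simp
          simp [E, s, b, this]
  have hpair : ∀ i r, G.Adj (φ (i, !r)) (φ (i, r)) := by
    intro i r
    cases r
    · exact (hφ i).symm
    · exact hφ i
  refine ⟨m, Equiv.ofBijective E hE, ?_⟩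
  have key : ∀ t, G.Adj (E (t, 0)) (E (t, 1)) ∧ G.Adj (E (t, 1)) (E (t, 2)) ∧
      G.Adj (E (t, 2)) (E (t, 3)) := by
    intro t
    refine ⟨?_, ?_, ?_⟩
    · exact hpair _ _
    · exact hpq t
    · exact (hpair _ _).symm
  intro t a c hac
  rw [SimpleGraph.pathGraph_adj] at hac
  simp only [Equiv.ofBijective_apply]
  obtain ⟨k1, k2, k3⟩ := key t
  fin_cases a <;> fin_cases c <;> simp at hac
  · exact k1
  · exact k1.symm
  · exact k2
  · exact k2.symm
  · exact k3
  · exact k3.symm

/-- A `P₄`-factor gives a perfect matching. -/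
theorem perfect_of_factor {V : Type*} {G : SimpleGraph V}
    (h : HasFactor (SimpleGraph.pathGraph 4) G) : ∃ M : G.Subgraph, M.IsPerfectMatching := by
  obtain ⟨m, e, he⟩ := h
  let τ : Fin 4 → Fin 4 := ![1, 0, 3, 2]
  have hτ : ∀ k, τ (τ k) = k := by decide
  have hτ2 : ∀ k, (SimpleGraph.pathGraph 4).Adj k (τ k) := by
    intro k
    rw [SimpleGraph.pathGraph_adj]
    revert k; decide
  refine perfect_of_fun (fun v => e ((e.symm v).1, τ (e.symm v).2)) ?_ ?_
  · intro v
    simp [hτ]
  · intro v
    have := he (e.symm v).1 (e.symm v).2 (τ (e.symm v).2) (hτ2 _)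
    simpa using this

/-- A `P₄`-factor gives the divisibility of the orders of the components. -/
theorem dvd_of_factor {V : Type*} [Fintype V] {G : SimpleGraph V}
    (h : HasFactor (SimpleGraph.pathGraph 4) G) (c : G.ConnectedComponent) :
    4 ∣ c.supp.ncard := by
  classical
  obtain ⟨m, e, he⟩ := h
  have hconn : ∀ t k, G.connectedComponentMk (e (t, k)) = G.connectedComponentMk (e (t, 0)) := by
    intro t k
    have h01 : G.Adj (e (t, 0)) (e (t, 1)) := he t 0 1 (by rw [SimpleGraph.pathGraph_adj]; decide)
    have h12 : G.Adj (e (t, 1)) (e (t, 2)) := he t 1 2 (by rw [SimpleGraph.pathGraph_adj]; decide)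
    have h23 : G.Adj (e (t, 2)) (e (t, 3)) := he t 2 3 (by rw [SimpleGraph.pathGraph_adj]; decide)
    have e1 : G.connectedComponentMk (e (t, 1)) = G.connectedComponentMk (e (t, 0)) :=
      SimpleGraph.ConnectedComponent.sound h01.symm.reachable
    have e2 : G.connectedComponentMk (e (t, 2)) = G.connectedComponentMk (e (t, 1)) :=
      SimpleGraph.ConnectedComponent.sound h12.symm.reachable
    have e3 : G.connectedComponentMk (e (t, 3)) = G.connectedComponentMk (e (t, 2)) :=
      SimpleGraph.ConnectedComponent.sound h23.symm.reachable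
    fin_cases k
    · rfl
    · exact e1
    · exact e2.trans e1
    · exact e3.trans (e2.trans e1)
  let T : Finset (Fin m) := univ.filter (fun t => G.connectedComponentMk (e (t, 0)) = c)
  have h1 : c.supp = (((T ×ˢ (univ : Finset (Fin 4))).image e : Finset V) : Set V) := by
    ext v
    obtain ⟨⟨t, k⟩, rfl⟩ := e.surjective v
    rw [SimpleGraph.ConnectedComponent.mem_supp_iff, hconn t k]
    simp only [coe_image, Set.mem_image, mem_coe, mem_product, mem_univ, and_true]
    constructor
    · intro h
      exact ⟨(t, k), mem_filter.2 ⟨mem_univ _, h⟩, rfl⟩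
    · rintro ⟨x, hx, hxe⟩
      have := e.injective hxe
      subst this
      exact (mem_filter.1 hx).2
  rw [h1, Set.ncard_coe_finset, card_image_of_injective _ e.injective, card_product]
  simp

end H61P4
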