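import Pool.Agent.H61.P4.OnlyIf

/-!
Theorem B: the threshold for `P₄`-factors, minimum degree at least `c n` with `c > 1 / 4`.
-/

namespace H61P4

set_option linter.unusedSectionVars false

open Finset

/-- Adding disjoint copies to a factor of the remaining graph. -/
theorem hasFactor_add {W V : Type*} {H : SimpleGraph W} {G : SimpleGraph V} {k : ℕ}
    (q : Fin k × W ↪ V) (hq : ∀ i a b, H.Adj a b → G.Adj (q (i, a)) (q (i, b)))
    (hf : HasFactor H (G.induce (Set.range q)ᶜ)) : HasFactor H G := by
  classical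
  obtain ⟨m, e, he⟩ := hf
  let E : (Fin k ⊕ Fin m) × W → V := fun x => Sum.elim (fun i => q (i, x.2))
    (fun j => (e (j, x.2)).1) x.1
  have hE : Function.Bijective E := by
    constructor
    · rintro ⟨i | i, a⟩ ⟨j | j, b⟩ h
      · have h1 : q (i, a) = q (j, b) := h
        have h2 := q.injective h1
        simp only [Prod.mk.injEq] at h2
        rw [h2.1, h2.2]
      · exfalso
        have h1 : q (i, a) = (e (j, b)).1 := h
        exact (e (j, b)).2 ⟨_, h1⟩
      · exfalso
        have h1 : (e (i, a)).1 = q (j, b) := h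
        exact (e (i, a)).2 ⟨_, h1.symm⟩
      · have h1 : (e (i, a)).1 = (e (j, b)).1 := h
        have h2 := e.injective (Subtype.ext h1)
        simp only [Prod.mk.injEq] at h2
        rw [h2.1, h2.2]
    · intro v
      by_cases hv : v ∈ Set.range q
      · obtain ⟨⟨i, a⟩, rfl⟩ := hv
        exact ⟨(Sum.inl i, a), rfl⟩
      · obtain ⟨⟨j, b⟩, hjb⟩ := e.surjective ⟨v, hv⟩
        refine ⟨(Sum.inr j, b), ?_⟩
        change (e (j, b)).1 = v
        rw [hjb]
  refine hasFactor_of_index (Equiv.ofBijective E hE) ?_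
  rintro (i | j) a b hab
  · exact hq i a b hab
  · exact he j a b hab

theorem factor_iff {V : Type*} [Fintype V] [Nonempty V] (G : SimpleGraph V) {D : ℕ}
    (hD : MinDeg G D) (hs : Fintype.card V + 80 ≤ 4 * D) :
    HasFactor (SimpleGraph.pathGraph 4) G ↔
      ∃ (k : ℕ) (q : Fin k × Fin 4 ↪ V), k ≤ 4 ∧
        (∀ i a b, (SimpleGraph.pathGraph 4).Adj a b → G.Adj (q (i, a)) (q (i, b))) ∧
        Good (G.induce (Set.range q)ᶜ) := by
  classical
  constructor
  · intro hf
    exact good_of_factor hD (by omega) hf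
  · rintro ⟨k, q, hk, hq, hgood⟩
    refine hasFactor_add q hq ?_
    obtain ⟨hM, hc⟩ := hgood
    have h1 : (Set.range q)ᶜᶜ.ncard = 4 * k := by
      rw [compl_compl, ← Set.image_univ, Set.ncard_image_of_injective _ q.injective,
        Set.ncard_univ, Nat.card_eq_fintype_card, Fintype.card_prod, Fintype.card_fin,
        Fintype.card_fin, mul_comm]
    have h2 := hD.induce (Set.range q)ᶜ
    rw [h1] at h2
    have h3 : Fintype.card ((Set.range q)ᶜ : Set V) + 4 * k = Fintype.card V := by
      have h4 := Set.ncard_add_ncard_compl (Set.range q)ᶜ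
      rw [h1, Nat.card_eq_fintype_card, ← Nat.card_coe_set_eq, Nat.card_eq_fintype_card] at h4
      exact h4
    refine factor_of_B (G.induce (Set.range q)ᶜ) (D := D - 4 * k) h2 (by omega) hM
      (fun c => (hc c).1) ?_
    intro x y hxy
    refine (hc _).2 x ?_ y ?_
    · rw [SimpleGraph.ConnectedComponent.mem_supp_iff]
    · rw [SimpleGraph.ConnectedComponent.mem_supp_iff]
      exact SimpleGraph.ConnectedComponent.sound hxy.reachable.symm

theorem theorem_B {V : Type*} [Fintype V] (G : SimpleGraph V)
    (hdeg : ∀ v, Fintype.card V + 80 ≤ 4 * (G.neighborSet v).ncard) :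
      HasFactor (SimpleGraph.pathGraph 4) G ↔
        ∃ (k : ℕ) (q : Fin k × Fin 4 ↪ V), k ≤ 4 ∧
          (∀ i a b, (SimpleGraph.pathGraph 4).Adj a b → G.Adj (q (i, a)) (q (i, b))) ∧
          Good (G.induce (Set.range q)ᶜ) := by
  classical
  rcases isEmpty_or_nonempty V with he | hne
  · constructor
    · intro _
      refine ⟨0, ⟨fun x => x.1.elim0, fun x => x.1.elim0⟩, by omega, fun i => i.elim0, ?_, ?_⟩
      · refine perfect_of_fun (fun v => v) (fun v => rfl) (fun v => ?_)
        exact he.elim v.1
      · intro c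
        obtain ⟨v, -⟩ := c.exists_rep
        exact he.elim v.1
    · intro _
      exact ⟨0, ⟨fun x => x.1.elim0, fun v => he.elim v, fun x => x.1.elim0, fun v => he.elim v⟩,
        fun i => i.elim0⟩
  · refine factor_iff G (D := (Fintype.card V + 80 + 3) / 4) ?_ (by omega)
    intro v
    have := hdeg v
    omega

end H61P4
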