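import Pool.Agent.H61.P4.PM

/-!
A Gallai–Edmonds type structure theorem: barriers with factor-critical parts and Hall's condition.
-/

namespace H61P4

open Finset

variable {ι : Type*} [DecidableEq ι]

/-- A barrier `S` of the induced subgraph on `Y` with a family `P` of odd parts. -/
structure Bar (L : SimpleGraph ι) (Y S : Finset ι) (P : Finset (Finset ι)) : Prop where
  hS : S ⊆ Y
  hY : ∀ K ∈ P, K ⊆ Y
  hKS : ∀ K ∈ P, Disjoint K S
  odd : ∀ K ∈ P, Odd K.card
  disj : ∀ K ∈ P, ∀ K' ∈ P, K ≠ K' → Disjoint K K'
  adj : ∀ K ∈ P, ∀ v ∈ K, ∀ w ∈ Y, L.Adj v w → w ∈ K ∨ w ∈ S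

open Classical in
/-- The parts in `P` that meet the neighbourhood of `t`. -/
noncomputable def nb (L : SimpleGraph ι) (P : Finset (Finset ι)) (t : ι) : Finset (Finset ι) :=
  P.filter (fun K => ∃ v ∈ K, L.Adj t v)

variable {L : SimpleGraph ι} {P : Finset (Finset ι)} {Y S : Finset ι}

omit [DecidableEq ι] in
theorem mem_nb {t : ι} {K : Finset ι} : K ∈ nb L P t ↔ K ∈ P ∧ ∃ v ∈ K, L.Adj t v := by
  classical
  simp [nb]

omit [DecidableEq ι] in
theorem nb_subset {t : ι} : nb L P t ⊆ P := fun _ h => (mem_nb.1 h).1

theorem biUnion_nb_subset {T : Finset ι} : T.biUnion (nb L P) ⊆ P :=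
  biUnion_subset.2 fun _ _ => nb_subset

/-- Hall's theorem for finsets. -/
theorem hall {β : Type*} [DecidableEq β] [Nonempty β] (T : Finset ι) (g : ι → Finset β)
    (h : ∀ T' ⊆ T, T'.card ≤ (T'.biUnion g).card) :
    ∃ f : ι → β, Set.InjOn f T ∧ ∀ t ∈ T, f t ∈ g t := by
  classical
  have := (Finset.all_card_le_biUnion_card_iff_exists_injective
    (fun t : {t // t ∈ T} => g t.1)).1 ?_
  · obtain ⟨f, hf, hg⟩ := this
    refine ⟨fun t => if ht : t ∈ T then f ⟨t, ht⟩ else Classical.arbitrary β, ?_, ?_⟩
    · intro a ha b hb hab
      have ha' : a ∈ T := ha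
      have hb' : b ∈ T := hb
      simp only [ha', hb', dif_pos] at hab
      simpa using hf hab
    · intro t ht
      simp only [ht, dif_pos]
      exact hg ⟨t, ht⟩
  · intro s
    have h1 := h (s.image Subtype.val) (by
      intro x hx
      obtain ⟨y, hy, rfl⟩ := mem_image.1 hx
      exact y.2)
    rw [card_image_of_injective _ Subtype.val_injective, image_biUnion] at h1
    exact h1

/-- Combining a matching of `T` into the parts `N` with the inner matchings of the parts. -/
theorem build (T : Finset ι) (N : Finset (Finset ι))
    (hdisj : ∀ K ∈ N, ∀ K' ∈ N, K ≠ K' → Disjoint K K')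
    (hT : ∀ K ∈ N, Disjoint K T) (fc : ∀ K ∈ N, ∀ v ∈ K, PM L (K.erase v))
    (f : ι → Finset ι) (hf : ∀ t ∈ T, f t ∈ N ∧ ∃ v ∈ f t, L.Adj t v)
    (finj : Set.InjOn f T) (x : Finset ι → ι) (hx : ∀ K ∈ N, x K ∈ K) :
    PM L ((T ∪ N.biUnion id) \ ((N \ T.image f).image x)) := by
  induction T using Finset.induction_on generalizing N with
  | empty =>
    have h1 : (∅ ∪ N.biUnion id) \ ((N \ (∅ : Finset ι).image f).image x)
        = N.biUnion (fun K => K.erase (x K)) := by
      ext z
      simp only [empty_union, image_empty, sdiff_empty, mem_sdiff, mem_biUnion, mem_image, id_eq,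
        mem_erase]
      constructor
      · rintro ⟨⟨K, hK, hz⟩, h2⟩
        refine ⟨K, hK, ?_, hz⟩
        rintro rfl
        exact h2 ⟨K, hK, rfl⟩
      · rintro ⟨K, hK, hne, hz⟩
        refine ⟨⟨K, hK, hz⟩, ?_⟩
        rintro ⟨K', hK', rfl⟩
        by_cases hKK : K = K'
        · subst hKK; exact hne rfl
        · exact (disjoint_left.1 (hdisj K hK K' hK' hKK) hz) (hx K' hK')
    rw [h1]
    refine PM.biUnion N _ (fun K hK => fc K hK _ (hx K hK)) ?_
    intro K hK K' hK' hne
    exact (hdisj K hK K' hK' hne).mono (erase_subset _ _) (erase_subset _ _)
  | insert t T ht ih =>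
    obtain ⟨hK, v, hv, htv⟩ := hf t (by simp)
    set K := f t with hKdef
    have hfT : ∀ s ∈ T, f s ≠ K := by
      intro s hs h
      have := finj (by simp [hs]) (by simp) (h.trans hKdef)
      subst this; exact ht hs
    have ih' := ih (N.erase K) (by
        intro A hA B hB
        exact hdisj A (mem_of_mem_erase hA) B (mem_of_mem_erase hB))
      (by
        intro A hA
        exact (hT A (mem_of_mem_erase hA)).mono_right (subset_insert _ _))
      (by
        intro A hA
        exact fc A (mem_of_mem_erase hA))
      (by
        intro s hs
        obtain ⟨h1, h2⟩ := hf s (by simp [hs])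
        exact ⟨mem_erase.2 ⟨hfT s hs, h1⟩, h2⟩)
      (finj.mono (by simp))
      (by
        intro A hA
        exact hx A (mem_of_mem_erase hA))
    have htK : t ∉ K := fun h => disjoint_left.1 (hT K hK) h (by simp)
    have h2 : PM L (insert t (insert v (K.erase v))) :=
      PM.cons htv (by simp [htK]) (by simp) (fc K hK v hv)
    have h3 : PM L (((T ∪ (N.erase K).biUnion id) \ ((N.erase K \ T.image f).image x)) ∪
        insert t (insert v (K.erase v))) := by
      refine PM.union ih' h2 ?_
      rw [disjoint_left]
      intro z hz hz2
      rw [insert_erase hv, mem_insert] at hz2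
      simp only [mem_sdiff, mem_union, mem_biUnion, id_eq, mem_erase] at hz
      obtain ⟨h4 | ⟨A, ⟨hAK, hA⟩, hzA⟩, -⟩ := hz
      · rcases hz2 with rfl | h5
        · exact ht h4
        · exact disjoint_left.1 (hT K hK) h5 (by simp [h4])
      · rcases hz2 with rfl | h5
        · exact disjoint_left.1 (hT A hA) hzA (by simp)
        · exact disjoint_left.1 (hdisj A hA K hK hAK) hzA h5
    have h4 : (((T ∪ (N.erase K).biUnion id) \ ((N.erase K \ T.image f).image x)) ∪
        insert t (insert v (K.erase v))) =
        (insert t T ∪ N.biUnion id) \ ((N \ (insert t T).image f).image x) := by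
      have h5 : N \ (insert t T).image f = N.erase K \ T.image f := by
        ext A
        simp only [image_insert, mem_sdiff, mem_insert, mem_erase, ← hKdef]
        tauto
      rw [h5, insert_erase hv]
      have h6 : ∀ z ∈ (N.erase K \ T.image f).image x, z ∉ K ∧ z ≠ t := by
        intro z hz
        obtain ⟨A, hA, rfl⟩ := mem_image.1 hz
        simp only [mem_sdiff, mem_erase] at hA
        obtain ⟨⟨hAK, hA⟩, -⟩ := hA
        refine ⟨fun h => disjoint_left.1 (hdisj A hA K hK hAK) (hx A hA) h, fun h => ?_⟩
        exact disjoint_left.1 (hT A hA) (hx A hA) (by simp [h])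
      ext z
      constructor
      · intro hz
        rcases mem_union.1 hz with hz | hz
        · simp only [mem_sdiff, mem_union, mem_biUnion, id_eq, mem_erase] at hz ⊢
          obtain ⟨h7 | ⟨A, ⟨-, hA⟩, hzA⟩, h8⟩ := hz
          · exact ⟨Or.inl (by simp [h7]), h8⟩
          · exact ⟨Or.inr ⟨A, hA, hzA⟩, h8⟩
        · rw [mem_sdiff]
          rw [mem_insert] at hz
          refine ⟨?_, fun h => ?_⟩
          · rcases hz with rfl | hz
            · simp
            · exact mem_union_right _ (mem_biUnion.2 ⟨K, hK, hz⟩)
          · rcases hz with rfl | hz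
            · exact (h6 _ h).2 rfl
            · exact (h6 _ h).1 hz
      · intro hz
        obtain ⟨h7, h8⟩ := mem_sdiff.1 hz
        by_cases hz2 : z ∈ insert t K
        · exact mem_union_right _ hz2
        · refine mem_union_left _ (mem_sdiff.2 ⟨?_, h8⟩)
          rw [mem_insert] at hz2
          push Not at hz2
          rcases mem_union.1 h7 with h9 | h9
          · rw [mem_insert] at h9
            exact mem_union_left _ (h9.resolve_left hz2.1)
          · obtain ⟨A, hA, hzA⟩ := mem_biUnion.1 h9
            refine mem_union_right _ (mem_biUnion.2 ⟨A, mem_erase.2 ⟨?_, hA⟩, hzA⟩)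
            rintro rfl
            exact hz2.2 hzA
    rw [← h4]
    exact h3

theorem odd_sum (P : Finset (Finset ι)) (h : ∀ K ∈ P, Odd K.card) :
    Even (∑ K ∈ P, K.card + P.card) := by
  induction P using Finset.induction_on with
  | empty => simp
  | insert K P hK ih =>
    rw [sum_insert hK, card_insert_of_notMem hK]
    have h1 := ih (fun A hA => h A (by simp [hA]))
    have h2 := h K (by simp)
    have : K.card + ∑ x ∈ P, x.card + (P.card + 1) = (∑ x ∈ P, x.card + P.card) + (K.card + 1) := by
      ring
    rw [this]
    exact h1.add (h2.add_odd (by decide))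

theorem Bar.card_eq (h : Bar L Y S P) (hU : Y = S ∪ P.biUnion id) :
    Y.card = S.card + ∑ K ∈ P, K.card := by
  rw [hU, card_union_of_disjoint, card_biUnion]
  · rfl
  · intro A hA B hB hne
    exact h.disj A hA B hB hne
  · rw [disjoint_biUnion_right]
    intro K hK
    exact (h.hKS K hK).symm

/-- The structure theorem: every finset `Y` of vertices has a barrier `S` with a family `P` of odd,
factor-critical parts which together with `S` fill `Y`, satisfying Hall's condition. -/
theorem exists_GE (L : SimpleGraph ι) (Y : Finset ι) :
    ∃ S P, Bar L Y S P ∧ Y = S ∪ P.biUnion id ∧ (∀ K ∈ P, ∀ v ∈ K, PM L (K.erase v)) ∧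
      (∀ T ⊆ S, T.card ≤ (T.biUnion (nb L P)).card) := by
  classical
  induction Y using Finset.strongInduction with
  | H Y ih =>
    -- choose a maximal barrier
    let F : Finset (Finset ι × Finset (Finset ι)) :=
      (Y.powerset ×ˢ Y.powerset.powerset).filter (fun q => Bar L Y q.1 q.2)
    let g : Finset ι × Finset (Finset ι) → ℕ :=
      fun q => (Y.card + 1) * (q.2.card + (Y.card - q.1.card)) + q.1.card
    have hF : ∀ S P, Bar L Y S P → (S, P) ∈ F := by
      intro S P h
      simp only [F, mem_filter, mem_product, mem_powerset]
      refine ⟨⟨h.hS, fun K hK => mem_powerset.2 (h.hY K hK)⟩, h⟩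
    have hne : F.Nonempty := by
      refine ⟨(∅, ∅), hF _ _ ⟨by simp, by simp, by simp, by simp, by simp, by simp⟩⟩
    obtain ⟨⟨S, P⟩, hSP, hmax⟩ := exists_max_image F g hne
    have hB : Bar L Y S P := (mem_filter.1 hSP).2
    have hmax' : ∀ S' P', Bar L Y S' P' →
        (Y.card + 1) * (P'.card + (Y.card - S'.card)) + S'.card ≤
        (Y.card + 1) * (P.card + (Y.card - S.card)) + S.card := by
      intro S' P' h
      exact hmax _ (hF _ _ h)
    have hScard : S.card ≤ Y.card := card_le_card hB.hS
    -- the parts fill
    have hfill : Y = S ∪ P.biUnion id := by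
      apply Subset.antisymm
      · by_contra hcon
        rw [not_subset] at hcon
        obtain ⟨v, hvY, hv⟩ := hcon
        set R := Y \ (S ∪ P.biUnion id) with hR
        have hvR : v ∈ R := mem_sdiff.2 ⟨hvY, hv⟩
        have hRS : Disjoint R S := by
          rw [disjoint_left]; intro z hz hz2
          exact (mem_sdiff.1 hz).2 (mem_union_left _ hz2)
        have hRK : ∀ K ∈ P, Disjoint R K := by
          intro K hK
          rw [disjoint_left]; intro z hz hz2
          exact (mem_sdiff.1 hz).2 (mem_union_right _ (mem_biUnion.2 ⟨K, hK, hz2⟩))
        have hRadj : ∀ z ∈ R, ∀ w ∈ Y, L.Adj z w → w ∈ R ∨ w ∈ S := by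
          intro z hz w hw hzw
          by_contra hc
          push Not at hc
          obtain ⟨hc1, hc2⟩ := hc
          have : w ∈ P.biUnion id := by
            by_contra h3
            exact hc1 (mem_sdiff.2 ⟨hw, by simp only [mem_union, not_or]; exact ⟨hc2, h3⟩⟩)
          obtain ⟨K, hK, hwK⟩ := mem_biUnion.1 this
          rcases hB.adj K hK w hwK z (mem_sdiff.1 hz).1 hzw.symm with h4 | h4
          · exact disjoint_left.1 (hRK K hK) hz h4
          · exact disjoint_left.1 hRS hz h4
        rcases Nat.even_or_odd R.card with hev | hodd
        · -- even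
          have hodd' : Odd (R.erase v).card := by
            rw [card_erase_of_mem hvR]
            have : 1 ≤ R.card := card_pos.2 ⟨v, hvR⟩
            exact Nat.Even.sub_odd this hev (by decide)
          have hnot : R.erase v ∉ P := by
            intro h
            have h5 : (R.erase v).Nonempty := card_pos.1 (by rcases hodd' with ⟨k, hk⟩; omega)
            obtain ⟨z, hz⟩ := h5
            exact disjoint_left.1 (hRK _ h) (mem_of_mem_erase hz) hz
          have hbar : Bar L Y (insert v S) (insert (R.erase v) P) := by
            refine ⟨?_, ?_, ?_, ?_, ?_, ?_⟩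
            · exact insert_subset hvY hB.hS
            · intro K hK
              rcases mem_insert.1 hK with rfl | hK
              · exact (erase_subset _ _).trans sdiff_subset
              · exact hB.hY K hK
            · intro K hK
              rw [disjoint_insert_right]
              rcases mem_insert.1 hK with rfl | hK
              · exact ⟨by simp, hRS.mono_left (erase_subset _ _)⟩
              · exact ⟨fun h => disjoint_left.1 (hRK K hK) hvR h, hB.hKS K hK⟩
            · intro K hK
              rcases mem_insert.1 hK with rfl | hK
              · exact hodd'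
              · exact hB.odd K hK
            · intro K hK K' hK' hne
              rcases mem_insert.1 hK with h1 | h1 <;> rcases mem_insert.1 hK' with h2 | h2
              · exact absurd (h1.trans h2.symm) hne
              · subst h1
                exact (hRK _ h2).mono_left (erase_subset _ _)
              · subst h2
                exact ((hRK _ h1).mono_left (erase_subset _ _)).symm
              · exact hB.disj K h1 K' h2 hne
            · intro K hK z hz w hw hzw
              rcases mem_insert.1 hK with h1 | h1
              · subst h1
                rcases hRadj z (mem_of_mem_erase hz) w hw hzw with h2 | h2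
                · by_cases hwv : w = v
                  · exact Or.inr (by simp [hwv])
                  · exact Or.inl (mem_erase.2 ⟨hwv, h2⟩)
                · exact Or.inr (by simp [h2])
              · rcases hB.adj K h1 z hz w hw hzw with h2 | h2
                · exact Or.inl h2
                · exact Or.inr (by simp [h2])
          have h6 := hmax' _ _ hbar
          have hvS : v ∉ S := fun h => disjoint_left.1 hRS hvR h
          rw [card_insert_of_notMem hvS, card_insert_of_notMem hnot] at h6
          have h7 : S.card + 1 ≤ Y.card := by
            rw [← card_insert_of_notMem hvS]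
            exact card_le_card (insert_subset hvY hB.hS)
          have h8 : P.card + 1 + (Y.card - (S.card + 1)) = P.card + (Y.card - S.card) := by omega
          rw [h8] at h6
          omega
        · have hnot : R ∉ P := fun h => disjoint_left.1 (hRK _ h) hvR hvR
          have hbar : Bar L Y S (insert R P) := by
            refine ⟨hB.hS, ?_, ?_, ?_, ?_, ?_⟩
            · intro K hK
              rcases mem_insert.1 hK with rfl | hK
              · exact sdiff_subset
              · exact hB.hY K hK
            · intro K hK
              rcases mem_insert.1 hK with rfl | hK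
              · exact hRS
              · exact hB.hKS K hK
            · intro K hK
              rcases mem_insert.1 hK with rfl | hK
              · exact hodd
              · exact hB.odd K hK
            · intro K hK K' hK' hne
              rcases mem_insert.1 hK with h1 | h1 <;> rcases mem_insert.1 hK' with h2 | h2
              · exact absurd (h1.trans h2.symm) hne
              · subst h1
                exact hRK _ h2
              · subst h2
                exact (hRK _ h1).symm
              · exact hB.disj K h1 K' h2 hne
            · intro K hK z hz w hw hzw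
              rcases mem_insert.1 hK with h1 | h1
              · subst h1
                exact hRadj z hz w hw hzw
              · exact hB.adj K h1 z hz w hw hzw
          have h6 := hmax' _ _ hbar
          rw [card_insert_of_notMem hnot] at h6
          have h7 : (Y.card + 1) * (P.card + 1 + (Y.card - S.card)) =
            (Y.card + 1) * (P.card + (Y.card - S.card)) + (Y.card + 1) := by ring
          omega
      · refine union_subset hB.hS (biUnion_subset.2 hB.hY)
    refine ⟨S, P, hB, hfill, ?_, ?_⟩
    · -- factor-critical
      intro K hK v hv
      have hss : K.erase v ⊂ Y := by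
        refine (Finset.ssubset_iff_of_subset ((erase_subset _ _).trans (hB.hY K hK))).2
          ⟨v, hB.hY K hK hv, by simp⟩
      obtain ⟨S', P', hB', hfill', hfc', hall'⟩ := ih _ hss
      have hle : S'.card ≤ P'.card :=
        (hall' S' (Subset.refl _)).trans (card_le_card biUnion_nb_subset)
      rcases Nat.eq_or_lt_of_le hle with heq | hlt
      · obtain ⟨f, finj, hf⟩ := hall S' (nb L P') hall'
        have h1 : P' \ S'.image f = ∅ := by
          have h2 : S'.image f ⊆ P' := by
            intro A hA
            obtain ⟨t, ht, rfl⟩ := mem_image.1 hA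
            exact nb_subset (hf t ht)
          have h3 : S'.image f = P' := by
            apply eq_of_subset_of_card_le h2
            rw [card_image_of_injOn finj, heq]
          rw [h3, sdiff_self]
          rfl
        have hx : ∀ A ∈ P', ∃ x, x ∈ A := by
          intro A hA
          exact card_pos.1 (by rcases hB'.odd A hA with ⟨k, hk⟩; omega)
        have : Nonempty ι := ⟨v⟩
        choose! x hx using hx
        have h2 := build S' P' hB'.disj hB'.hKS hfc' f (fun t ht => mem_nb.1 (hf t ht)) finj x hx
        rw [h1, image_empty, sdiff_empty, ← hfill'] at h2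
        exact h2
      · exfalso
        have hcard' := hB'.card_eq hfill'
        have hpar := odd_sum P' hB'.odd
        have hKodd := hB.odd K hK
        have hKcard : (K.erase v).card + 1 = K.card := card_erase_add_one hv
        have hP'2 : S'.card + 2 ≤ P'.card := by
          rcases hpar with ⟨a, ha⟩
          rcases hKodd with ⟨b, hb⟩
          omega
        have hvS : v ∉ S := fun h => disjoint_left.1 (hB.hKS K hK) hv h
        have hS'K : S' ⊆ K.erase v := hB'.hS
        have hdisjSS : Disjoint S S' := by
          refine (hB.hKS K hK).symm.mono_right (hS'K.trans (erase_subset _ _))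
        have hvS' : v ∉ S' := fun h => by simpa using hS'K h
        have hPP : Disjoint (P.erase K) P' := by
          rw [disjoint_left]
          intro A hA hA'
          have h1 : A ⊆ K := (hB'.hY A hA').trans (erase_subset _ _)
          have h2 := hB.disj A (mem_of_mem_erase hA) K hK (ne_of_mem_erase hA)
          have h3 : A.Nonempty := card_pos.1 (by rcases hB'.odd A hA' with ⟨k, hk⟩; omega)
          obtain ⟨z, hz⟩ := h3
          exact disjoint_left.1 h2 hz (h1 hz)
        have hbar : Bar L Y (insert v (S ∪ S')) (P.erase K ∪ P') := by
          refine ⟨?_, ?_, ?_, ?_, ?_, ?_⟩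
          · refine insert_subset (hB.hY K hK hv) (union_subset hB.hS ?_)
            exact hS'K.trans ((erase_subset _ _).trans (hB.hY K hK))
          · intro A hA
            rcases mem_union.1 hA with h1 | h1
            · exact hB.hY A (mem_of_mem_erase h1)
            · exact (hB'.hY A h1).trans ((erase_subset _ _).trans (hB.hY K hK))
          · intro A hA
            rw [disjoint_insert_right, disjoint_union_right]
            rcases mem_union.1 hA with h1 | h1
            · have h2 := hB.disj A (mem_of_mem_erase h1) K hK (ne_of_mem_erase h1)
              refine ⟨fun h => disjoint_left.1 h2 h hv, hB.hKS A (mem_of_mem_erase h1), ?_⟩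
              exact h2.mono_right (hS'K.trans (erase_subset _ _))
            · refine ⟨fun h => by simpa using hB'.hY A h1 h, ?_, hB'.hKS A h1⟩
              exact (hB.hKS K hK).mono_left ((hB'.hY A h1).trans (erase_subset _ _))
          · intro A hA
            rcases mem_union.1 hA with h1 | h1
            · exact hB.odd A (mem_of_mem_erase h1)
            · exact hB'.odd A h1
          · intro A hA A' hA' hne
            rcases mem_union.1 hA with h1 | h1 <;> rcases mem_union.1 hA' with h2 | h2
            · exact hB.disj A (mem_of_mem_erase h1) A' (mem_of_mem_erase h2) hne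
            · have h3 := hB.disj A (mem_of_mem_erase h1) K hK (ne_of_mem_erase h1)
              exact h3.mono_right ((hB'.hY A' h2).trans (erase_subset _ _))
            · have h3 := hB.disj A' (mem_of_mem_erase h2) K hK (ne_of_mem_erase h2)
              exact (h3.mono_right ((hB'.hY A h1).trans (erase_subset _ _))).symm
            · exact hB'.disj A h1 A' h2 hne
          · intro A hA z hz w hw hzw
            rcases mem_union.1 hA with h1 | h1
            · rcases hB.adj A (mem_of_mem_erase h1) z hz w hw hzw with h2 | h2
              · exact Or.inl h2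
              · exact Or.inr (by simp [h2])
            · have hzK : z ∈ K := mem_of_mem_erase (hB'.hY A h1 hz)
              rcases hB.adj K hK z hzK w hw hzw with h2 | h2
              · by_cases hwv : w = v
                · exact Or.inr (by simp [hwv])
                · rcases hB'.adj A h1 z hz w (mem_erase.2 ⟨hwv, h2⟩) hzw with h3 | h3
                  · exact Or.inl h3
                  · exact Or.inr (by simp [h3])
              · exact Or.inr (by simp [h2])
        have h6 := hmax' _ _ hbar
        have hc1 : (insert v (S ∪ S')).card = S.card + S'.card + 1 := by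
          rw [card_insert_of_notMem, card_union_of_disjoint hdisjSS]
          simp [hvS, hvS']
        have hc2 : (P.erase K ∪ P').card = P.card - 1 + P'.card := by
          rw [card_union_of_disjoint hPP, card_erase_of_mem hK]
        have hc3 : (insert v (S ∪ S')).card ≤ Y.card := card_le_card hbar.hS
        have hc4 : 1 ≤ P.card := card_pos.2 ⟨K, hK⟩
        rw [hc1] at hc3
        rw [hc1, hc2] at h6
        have h7 : P.card + (Y.card - S.card) ≤
            P.card - 1 + P'.card + (Y.card - (S.card + S'.card + 1)) := by omega
        have h8 := Nat.mul_le_mul_left (Y.card + 1) h7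
        omega
    · -- Hall
      intro T hT
      by_contra hcon
      push Not at hcon
      have hbar : Bar L Y (S \ T) (P \ T.biUnion (nb L P)) := by
        refine ⟨sdiff_subset.trans hB.hS, ?_, ?_, ?_, ?_, ?_⟩
        · intro K hK; exact hB.hY K (mem_sdiff.1 hK).1
        · intro K hK; exact (hB.hKS K (mem_sdiff.1 hK).1).mono_right sdiff_subset
        · intro K hK; exact hB.odd K (mem_sdiff.1 hK).1
        · intro K hK K' hK' hne
          exact hB.disj K (mem_sdiff.1 hK).1 K' (mem_sdiff.1 hK').1 hne
        · intro K hK z hz w hw hzw
          rcases hB.adj K (mem_sdiff.1 hK).1 z hz w hw hzw with h1 | h1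
          · exact Or.inl h1
          · refine Or.inr (mem_sdiff.2 ⟨h1, fun h2 => (mem_sdiff.1 hK).2 ?_⟩)
            exact mem_biUnion.2 ⟨w, h2, mem_nb.2 ⟨(mem_sdiff.1 hK).1, z, hz, hzw.symm⟩⟩
      have h6 := hmax' _ _ hbar
      have hc1 : (S \ T).card = S.card - T.card := card_sdiff_of_subset hT
      have hc2 : (P \ T.biUnion (nb L P)).card = P.card - (T.biUnion (nb L P)).card :=
        card_sdiff_of_subset biUnion_nb_subset
      have hc3 : (T.biUnion (nb L P)).card ≤ P.card := card_le_card biUnion_nb_subset
      have hc4 : T.card ≤ S.card := card_le_card hT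
      rw [hc1, hc2] at h6
      have h7 : P.card + (Y.card - S.card) + 1 ≤
          P.card - (T.biUnion (nb L P)).card + (Y.card - (S.card - T.card)) := by omega
      have h8 := Nat.mul_le_mul_left (Y.card + 1) h7
      have h9 : (Y.card + 1) * (P.card + (Y.card - S.card) + 1) =
        (Y.card + 1) * (P.card + (Y.card - S.card)) + (Y.card + 1) := by ring
      omega

end H61P4
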