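import Pool.Agent.H61.P4.Factor

/-!
Theorem A: the explicit version for minimum degree at least `n / 3 + 1`.
-/

namespace H61P4

set_option linter.unusedSectionVars false

open Finset

variable {ι : Type*} [DecidableEq ι] [Fintype ι] {V : Type*} [Fintype V] [DecidableEq V]
variable {G : SimpleGraph V} {φ : ι × Bool ≃ V} {A : Finset ι}
  {C : Finset (Finset ι × Finset (Finset ι))}

theorem CoreData.dvd_closed (h : CoreData G φ A C)
    (hG : ∀ c : G.ConnectedComponent, 4 ∣ c.supp.ncard) {c} (hc : c ∈ C) {K} (hK : K ∈ c.2)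
    (hcl : ∀ u ∈ (K ×ˢ (univ : Finset Bool)).image φ, ∀ w, G.Adj u w →
      w ∈ (K ×ˢ (univ : Finset Bool)).image φ) : False := by
  have h1 := dvd_of_closed hG _ hcl
  rw [card_image_of_injective _ φ.injective, card_product, card_univ, Fintype.card_bool] at h1
  have hodd := (h.odd c hc).2 K hK
  rcases hodd with ⟨k, hk⟩
  omega

/-- If `A = ∅`, all classes are nontrivial. -/
theorem CoreData.nontrivial (h : CoreData G φ A C)
    (hG : ∀ c : G.ConnectedComponent, 4 ∣ c.supp.ncard) (hA : A = ∅) {c} (hc : c ∈ C) :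
    c.1.Nonempty := by
  by_contra hne
  rw [not_nonempty_iff_eq_empty] at hne
  obtain ⟨K, hK⟩ := h.nonempty hc
  refine h.dvd_closed hG hc hK ?_
  intro u hu w hw
  obtain ⟨⟨i, s⟩, hi, rfl⟩ := mem_image.1 hu
  obtain ⟨⟨j, t⟩, rfl⟩ := φ.surjective w
  simp only [mem_product, mem_univ, and_true] at hi
  refine mem_image.2 ⟨(j, t), ?_, rfl⟩
  simp only [mem_product, mem_univ, and_true]
  by_cases hij : i = j
  · rw [← hij]; exact hi
  · rcases h.nbr c hc K hK i hi j ⟨hij, s, t, hw⟩ with h1 | h1 | h1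
    · exact h1
    · rw [hne] at h1; simp at h1
    · rw [hA] at h1; simp at h1

/-- The case `A = ∅`. -/
theorem CoreData.case_zero (h : CoreData G φ A C)
    (hG : ∀ c : G.ConnectedComponent, 4 ∣ c.supp.ncard) (hA : A = ∅) {D : ℕ} (hD : MinDeg G D) :
    4 * (D / 2) + 2 ≤ Fintype.card ι := by
  have h1 := h.total_ge (2 * (D / 2) + 1) (by
    intro c hc
    have h2 := h.class_big hD hc (h.nontrivial hG hA hc)
    rw [hA, card_empty, Nat.sub_zero] at h2
    exact h2)
  rw [hA, card_empty] at h1
  omega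

theorem MinDeg.link_full {D : ℕ} (hD : MinDeg G D) (i : ι) (T : Finset ι)
    (hT : ∀ j, (lk G φ).Adj i j → j ∈ T) (hDT : 2 * T.card + 1 ≤ D) (s : Bool) (j : ι) (hj : j ∈ T)
    (t : Bool) : G.Adj (φ (i, s)) (φ (j, t)) := by
  have h1 := hD (φ (i, s))
  have h2 : G.neighborSet (φ (i, s)) ⊆
      ((insert (φ (i, !s)) ((T ×ˢ (univ : Finset Bool)).image φ) : Finset V) : Set V) := by
    intro x hx
    rw [SimpleGraph.mem_neighborSet] at hx
    obtain ⟨⟨j, t⟩, rfl⟩ := φ.surjective x
    simp only [coe_insert, coe_image, Set.mem_insert_iff, Set.mem_image]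
    by_cases hj : j = i
    · subst hj
      left
      have : t = !s := by cases s <;> cases t <;> simp_all
      rw [this]
    · right
      refine ⟨(j, t), ?_, rfl⟩
      simp only [coe_product, coe_univ, Set.mem_prod, mem_coe, Set.mem_univ, and_true]
      exact hT j ⟨fun h => hj h.symm, s, t, hx⟩
  have h4 : (insert (φ (i, !s)) ((T ×ˢ (univ : Finset Bool)).image φ)).card ≤ T.card * 2 + 1 := by
    refine (card_insert_le _ _).trans ?_
    have := card_image_le (s := T ×ˢ (univ : Finset Bool)) (f := φ)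
    rw [card_product] at this
    simpa using this
  have h5 := Set.eq_of_subset_of_ncard_le h2 (by rw [Set.ncard_coe_finset]; omega)
    (finite_toSet _)
  rw [← SimpleGraph.mem_neighborSet, h5, mem_coe]
  refine mem_insert_of_mem (mem_image.2 ⟨(j, t), ?_, rfl⟩)
  simp [hj]

/-- If a part is as small as possible, all its elements cross all elements of `A`. -/
theorem CoreData.cross_of_small (h : CoreData G φ A C) {D : ℕ} (hD : MinDeg G D) {c} (hc : c ∈ C)
    {K} (hK : K ∈ c.2) (hs : 2 * (K.card + c.1.card + A.card) ≤ D + 1) {v : ι} (hv : v ∈ K)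
    {a : ι} (ha : a ∈ A) : Cross G φ v a := by
  have h2 : ((K.erase v) ∪ c.1 ∪ A).card ≤ (K.card - 1) + c.1.card + A.card := by
    refine (card_union_le _ _).trans (Nat.add_le_add_right ?_ _)
    refine (card_union_le _ _).trans (Nat.add_le_add_right ?_ _)
    rw [card_erase_of_mem hv]
  have h3 : 1 ≤ K.card := card_pos.2 ⟨v, hv⟩
  have h4 := hD.link_full (φ := φ) v ((K.erase v) ∪ c.1 ∪ A) (by
    intro j hj
    rcases h.nbr c hc K hK v hv j hj with h1 | h1 | h1
    · have : j ≠ v := fun h => hj.ne h.symm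
      simp [h1, this]
    · simp [h1]
    · simp [h1]) (by omega)
  exact ⟨false, h4 false a (by simp [ha]) false, h4 true a (by simp [ha]) true⟩

/-- For odd `D` and nonempty `A`, all classes but one are larger. -/
theorem CoreData.total_odd (h : CoreData G φ A C) {d : ℕ} (hD : MinDeg G (2 * d + 1))
    (hA : A.Nonempty) :
    A.card + (d + 1 - A.card) + (A.card + 1) * (d + 2 - A.card) ≤ Fintype.card ι := by
  classical
  have h1 := h.total
  have h2 := h.card_ge
  have h5 : ∑ c ∈ C, (c.1.card + ∑ K ∈ c.2, K.card) = ∑ c ∈ C, qq c := rfl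
  obtain ⟨a, ha⟩ := hA
  by_cases hex : ∃ c ∈ C, ∃ K ∈ c.2, 2 * (K.card + c.1.card + A.card) ≤ 2 * d + 1 + 1
  · obtain ⟨c, hc, K, hK, hs⟩ := hex
    have h3 : ∀ c' ∈ C.erase c, d + 2 - A.card ≤ qq c' := by
      intro c' hc'
      obtain ⟨hne, hc'C⟩ := mem_erase.1 hc'
      obtain ⟨K', hK'⟩ := h.nonempty hc'C
      have h6 := h.part_le hc'C hK'
      by_contra hcon
      have hs' : 2 * (K'.card + c'.1.card + A.card) ≤ 2 * d + 1 + 1 := by omega
      have hodd := (h.odd c hc).2 K hK
      have hodd' := (h.odd c' hc'C).2 K' hK'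
      obtain ⟨v, hv⟩ := card_pos.1 (show 0 < K.card by rcases hodd with ⟨k, hk⟩; omega)
      obtain ⟨w, hw⟩ := card_pos.1 (show 0 < K'.card by rcases hodd' with ⟨k, hk⟩; omega)
      exact (h.cross c hc c' hc'C (Ne.symm hne) K hK K' hK' v hv w hw).2.2 a ha
        ⟨h.cross_of_small hD hc hK hs hv ha, h.cross_of_small hD hc'C hK' hs' hw ha⟩
    have h4 : ∑ c' ∈ C.erase c, (d + 2 - A.card) ≤ ∑ c' ∈ C.erase c, qq c' := sum_le_sum h3
    rw [sum_const, smul_eq_mul, card_erase_of_mem hc] at h4
    have h6 : ∑ c ∈ C, qq c = qq c + ∑ c' ∈ C.erase c, qq c' := (add_sum_erase C qq hc).symm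
    have h7 := h.class_ge hD hc
    have h8 : (A.card + 1) * (d + 2 - A.card) ≤ (C.card - 1) * (d + 2 - A.card) :=
      Nat.mul_le_mul_right _ (by omega)
    omega
  · push Not at hex
    have h3 : ∀ c ∈ C, d + 2 - A.card ≤ qq c := by
      intro c hc
      obtain ⟨K, hK⟩ := h.nonempty hc
      have h6 := h.part_le hc hK
      have h7 := hex c hc K hK
      omega
    have h4 := h.total_ge _ h3
    have h8 : (A.card + 2) * (d + 2 - A.card) =
      (A.card + 1) * (d + 2 - A.card) + (d + 2 - A.card) := by ring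
    omega

/-- For `A = ∅` there are at least six pairs. -/
theorem CoreData.case_zero' (h : CoreData G φ A C)
    (hG : ∀ c : G.ConnectedComponent, 4 ∣ c.supp.ncard) (hA : A = ∅) :
    6 ≤ Fintype.card ι := by
  have h1 := h.total_ge 3 (by
    intro c hc
    have h2 := card_pos.2 (h.nontrivial hG hA hc)
    have h3 := (h.odd c hc).1
    have h4 := card_nsmul_le_sum c.2 (fun K => K.card) 1 (by
      intro K hK
      have hodd := (h.odd c hc).2 K hK
      rcases hodd with ⟨k, hk⟩; omega)
    rw [smul_eq_mul, mul_one] at h4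
    unfold qq
    omega)
  omega

theorem CoreData.false_A (h : CoreData G φ A C)
    (hG : ∀ c : G.ConnectedComponent, 4 ∣ c.supp.ncard) {D : ℕ} (hD : MinDeg G D)
    (hn : 2 * Fintype.card ι ≤ 3 * D + 1) : False := by
  have hfin : Fintype.card ι ≤ 3 * A.card → False := by
    intro hx
    have h1 := h.pigeon hD
    have h2 := h.single_ge
    have h3 := h.card_le
    set y := (C.filter (fun c => qq c = 1)).card with hy
    obtain ⟨t, ht⟩ := Nat.exists_eq_add_of_le h3
    have h4 : (A.card + 6) * A.card ≤ (2 * y) * (3 * (D - 1 - A.card)) := by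
      refine Nat.mul_le_mul ?_ ?_
      · omega
      · omega
    have h5 : (2 * y) * (3 * (D - 1 - A.card)) = 6 * (y * (D - 1 - A.card)) := by ring
    have h6 : (A.card + 6) * A.card = A.card * A.card + 6 * A.card := by ring
    have h7 : 0 < A.card * A.card := by
      have : 0 < A.card := by omega
      positivity
    omega
  rcases Nat.eq_zero_or_pos A.card with h0 | hpos
  · have h1 := h.case_zero hG (card_eq_zero.1 h0) hD
    have h2 := h.case_zero' hG (card_eq_zero.1 h0)
    omega
  rcases Nat.even_or_odd' D with ⟨d, hd | hd⟩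
  · -- even
    rcases lt_or_ge A.card d with hlt | hge
    · have h1 := h.total_ge (d + 1 - A.card) (by
        intro c hc
        have := h.class_ge hD hc
        omega)
      obtain ⟨b, hb⟩ := Nat.exists_eq_add_of_lt hlt
      have h2 : d + 1 - A.card = b + 2 := by omega
      rw [h2] at h1
      have h3 : 3 * (A.card + b + 1) + 1 ≤ A.card + (A.card + 2) * (b + 2) := by
        nlinarith
      omega
    · exact hfin (by omega)
  · rcases le_or_gt A.card d with hle | hgt
    · subst hd
      have h1 := h.total_odd hD (card_pos.1 hpos)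
      obtain ⟨i, hi⟩ := Nat.exists_eq_add_of_le hpos
      obtain ⟨j, hj⟩ := Nat.exists_eq_add_of_le hle
      have h2 : d + 2 - A.card = j + 2 := by omega
      rw [h2] at h1
      have h3 : (A.card + 1) * (j + 2) = i * j + 2 * i + 2 * j + 4 := by
        rw [hi]; ring
      omega
    · exact hfin (by omega)

/-- The sufficiency part of Theorem A. -/
theorem factor_of_A (G : SimpleGraph V) {D : ℕ} (hD : MinDeg G D)
    (hn : Fintype.card V ≤ 3 * D + 1) (hM : ∃ M : G.Subgraph, M.IsPerfectMatching)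
    (hG : ∀ c : G.ConnectedComponent, 4 ∣ c.supp.ncard) :
    HasFactor (SimpleGraph.pathGraph 4) G := by
  classical
  obtain ⟨M, hM⟩ := hM
  obtain ⟨m, φ0, hφ0⟩ := exists_matched (PM.of_perfect M hM)
  have hcard : Fintype.card V = m * 2 := by
    rw [← Fintype.card_congr φ0, Fintype.card_prod, Fintype.card_fin, Fintype.card_bool]
  have h4 : 4 ∣ (univ : Finset V).card := dvd_of_closed hG univ (fun _ _ _ _ => mem_univ _)
  rw [card_univ, hcard] at h4
  by_contra hno
  obtain ⟨φ, hφ, A, C, h1, h2, h3, h5, h6⟩ := core (ι := Fin m) G ⟨φ0, hφ0⟩ (by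
    rw [Fintype.card_fin]
    rcases h4 with ⟨k, hk⟩
    exact ⟨k, by omega⟩) (fun φ hφ hP => hno (hasFactor_of_link φ hφ hP))
  have hcore : CoreData G φ A C := ⟨h1, h2, h3, h5, h6⟩
  refine hcore.false_A hG hD ?_
  rw [Fintype.card_fin]
  omega

theorem theorem_A {V : Type*} [Fintype V] (G : SimpleGraph V)
    (h : ∀ v, Fintype.card V ≤ 3 * (G.neighborSet v).ncard + 1) :
    HasFactor (SimpleGraph.pathGraph 4) G ↔
      (∃ M : G.Subgraph, M.IsPerfectMatching) ∧ ∀ c : G.ConnectedComponent, 4 ∣ c.supp.ncard := by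
  classical
  constructor
  · intro hf
    exact ⟨perfect_of_factor hf, dvd_of_factor hf⟩
  · rintro ⟨h1, h2⟩
    refine factor_of_A G (D := (Fintype.card V + 1) / 3) ?_ (by omega) h1 h2
    intro v
    have := h v
    omega

end H61P4
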