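import Pool.Agent.H61.P4.MainA

/-!
Theorem B, sufficiency: minimum degree at least `c n` with `c > 1 / 4`.
-/

namespace H61P4

set_option linter.unusedSectionVars false

open Finset

variable {ι : Type*} [DecidableEq ι] [Fintype ι] {V : Type*} [Fintype V] [DecidableEq V]
variable {G : SimpleGraph V} {φ : ι × Bool ≃ V} {A : Finset ι}
  {C : Finset (Finset ι × Finset (Finset ι))}

theorem mem_of_reachable {W : Type*} {H : SimpleGraph W} (U : Set W)
    (hU : ∀ x ∈ U, ∀ y, H.Adj x y → y ∈ U) {x y : W} (h : H.Reachable x y) (hx : x ∈ U) :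
    y ∈ U := by
  obtain ⟨p⟩ := h
  induction p with
  | nil => exact hx
  | cons hadj p ih => exact ih (hU _ hx _ hadj)

/-- In a trivial class, when `A = {a}`, some vertex of the part is adjacent to the pair `a`. -/
theorem CoreData.touch (h : CoreData G φ A C)
    (hG : ∀ c : G.ConnectedComponent, 4 ∣ c.supp.ncard) {a : ι} (hA : A = {a}) {c} (hc : c ∈ C)
    (hc1 : c.1 = ∅) {K} (hK : K ∈ c.2) :
    ∃ i ∈ K, ∃ s t, G.Adj (φ (i, s)) (φ (a, t)) := by
  by_contra hcon
  push Not at hcon
  refine h.dvd_closed hG hc hK ?_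
  intro u hu w hw
  obtain ⟨⟨i, s⟩, hi, rfl⟩ := mem_image.1 hu
  obtain ⟨⟨j, t⟩, rfl⟩ := φ.surjective w
  simp only [mem_product, mem_univ, and_true] at hi
  refine mem_image.2 ⟨(j, t), ?_, rfl⟩
  simp only [mem_product, mem_univ, and_true]
  by_cases hij : i = j
  · rw [← hij]; exact hi
  · rcases h.nbr c hc K hK i hi j ⟨hij, s, t, hw⟩ with h1 | h1 | h1
    · exact h1
    · rw [hc1] at h1; simp at h1
    · rw [hA, mem_singleton] at h1
      subst h1
      exact absurd hw (hcon i hi s t)

/-- The case `|A| = 1`. -/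
theorem CoreData.case_one (h : CoreData G φ A C) (hφ : Matched G φ)
    (hG : ∀ c : G.ConnectedComponent, 4 ∣ c.supp.ncard)
    (hconn : ∀ x y, G.Adj x y →
      (G.induce ((G.connectedComponentMk x).supp \ {x, y})).Preconnected)
    (hA : A.card = 1) {D : ℕ} (hD : MinDeg G D) (hN : Fintype.card ι < 4 * (D / 2)) : False := by
  obtain ⟨a, ha⟩ := card_eq_one.1 hA
  have hge : ∀ c ∈ C, D / 2 ≤ qq c := by
    intro c hc
    have := h.class_ge hD hc
    omega
  have hC3 : 3 ≤ C.card := by
    have := h.card_ge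
    omega
  have htriv : ∀ c ∈ C, c.1 = ∅ := by
    intro c hc
    by_contra hne
    have h1 := h.class_big hD hc (nonempty_iff_ne_empty.2 hne)
    rw [hA] at h1
    have h2 := h.total
    have h3 : ∑ c ∈ C, (c.1.card + ∑ K ∈ c.2, K.card) = qq c + ∑ c' ∈ C.erase c, qq c' :=
      (add_sum_erase C qq hc).symm
    have h4 : ∑ c' ∈ C.erase c, D / 2 ≤ ∑ c' ∈ C.erase c, qq c' :=
      sum_le_sum fun c' hc' => hge c' (mem_of_mem_erase hc')
    rw [sum_const, smul_eq_mul, card_erase_of_mem hc] at h4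
    have h5 : 2 * (D / 2) ≤ (C.card - 1) * (D / 2) := Nat.mul_le_mul_right _ (by omega)
    omega
  obtain ⟨c, hc, c', hc', hne⟩ := one_lt_card.1 (show 1 < C.card by omega)
  obtain ⟨K, hK⟩ := h.nonempty hc
  obtain ⟨K', hK'⟩ := h.nonempty hc'
  obtain ⟨i, hi, s, t, hit⟩ := h.touch hG ha hc (htriv c hc) hK
  obtain ⟨i', hi', s', t', hit'⟩ := h.touch hG ha hc' (htriv c' hc') hK'
  have hcr := h.cross c hc c' hc' hne K hK K' hK'
  have hcr' := h.cross c' hc' c hc hne.symm K' hK' K hK
  have haA : a ∈ A := by rw [ha]; simp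
  have hia : i ≠ a := fun e => (hcr i hi i' hi').2.1 (e ▸ haA)
  have hia' : i' ≠ a := fun e => (hcr' i' hi' i hi).2.1 (e ▸ haA)
  have hab := hφ a
  have hcomp : ∀ t, G.connectedComponentMk (φ (a, t)) = G.connectedComponentMk (φ (a, false)) := by
    intro t
    cases t
    · rfl
    · exact SimpleGraph.ConnectedComponent.sound hab.symm.reachable
  have hu : φ (i, s) ∈ (G.connectedComponentMk (φ (a, false))).supp \
      {φ (a, false), φ (a, true)} := by
    refine ⟨?_, ?_⟩
    · rw [SimpleGraph.ConnectedComponent.mem_supp_iff, ← hcomp t]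
      exact SimpleGraph.ConnectedComponent.sound hit.reachable
    · simp [hia]
  have hu' : φ (i', s') ∈ (G.connectedComponentMk (φ (a, false))).supp \
      {φ (a, false), φ (a, true)} := by
    refine ⟨?_, ?_⟩
    · rw [SimpleGraph.ConnectedComponent.mem_supp_iff, ← hcomp t']
      exact SimpleGraph.ConnectedComponent.sound hit'.reachable
    · simp [hia']
  have hreach := hconn _ _ hab ⟨φ (i, s), hu⟩ ⟨φ (i', s'), hu'⟩
  have hmem := mem_of_reachable
    (U := {z | z.1 ∈ (K ×ˢ (univ : Finset Bool)).image φ}) ?_ hreach ?_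
  · obtain ⟨⟨j, r⟩, hj, hjr⟩ := mem_image.1 hmem
    have h1 := φ.injective hjr
    simp only [Prod.mk.injEq] at h1
    simp only [mem_product, mem_univ, and_true] at hj
    rw [h1.1] at hj
    exact (hcr i' hj i' hi').1 rfl
  · rintro ⟨x, hx⟩ hxK ⟨y, hy⟩ hxy
    obtain ⟨⟨j, r⟩, hj, rfl⟩ := mem_image.1 hxK
    simp only [mem_product, mem_univ, and_true] at hj
    obtain ⟨⟨l, q⟩, rfl⟩ := φ.surjective y
    refine mem_image.2 ⟨(l, q), ?_, rfl⟩
    simp only [mem_product, mem_univ, and_true]
    by_cases hjl : j = l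
    · rw [← hjl]; exact hj
    · rcases h.nbr c hc K hK j hj l ⟨hjl, r, q, hxy⟩ with h1 | h1 | h1
      · exact h1
      · rw [htriv c hc] at h1; simp at h1
      · exfalso
        rw [ha, mem_singleton] at h1
        subst h1
        apply hy.2
        cases q <;> simp
  · refine mem_image.2 ⟨(i, s), ?_, rfl⟩
    simp only [mem_product, mem_univ, and_true]
    exact hi

theorem CoreData.false_B (h : CoreData G φ A C) (hφ : Matched G φ)
    (hG : ∀ c : G.ConnectedComponent, 4 ∣ c.supp.ncard)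
    (hconn : ∀ x y, G.Adj x y →
      (G.induce ((G.connectedComponentMk x).supp \ {x, y})).Preconnected)
    {D : ℕ} (hD : MinDeg G D) (hE : Fintype.card ι + 5 ≤ 2 * D) : False := by
  rcases Nat.eq_zero_or_pos A.card with h0 | hpos
  · have := h.case_zero hG (card_eq_zero.1 h0) hD
    omega
  rcases Nat.eq_or_lt_of_le (Nat.succ_le_of_lt hpos) with h1 | h1
  · exact h.case_one hφ hG hconn h1.symm hD (by omega)
  have h1' : 2 ≤ A.card := h1
  rcases lt_or_ge A.card (D / 2) with hlt | hge
  · rcases Nat.lt_or_ge (A.card + 1) (D / 2) with hlt2 | hge2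
    · have h2 := h.total_ge (D / 2 + 1 - A.card) (by
        intro c hc
        have := h.class_ge hD hc
        omega)
      obtain ⟨b, hb⟩ := Nat.exists_eq_add_of_le (show A.card + 2 ≤ D / 2 by omega)
      have h3 : D / 2 + 1 - A.card = b + 3 := by omega
      rw [h3] at h2
      obtain ⟨y, hy⟩ := Nat.exists_eq_add_of_le h1'
      rw [hy] at h2 hb
      have h4 : 4 * (2 + y + 2 + b) ≤ 2 + y + (2 + y + 2) * (b + 3) + 2 := by
        nlinarith
      omega
    · have h2 := h.total_ge 3 (by
        intro c hc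
        have h3 := h.class_ge hD hc
        have h4 := h.class_odd hc
        rcases h4 with ⟨k, hk⟩
        omega)
      omega
  · have h2 := h.pigeon hD
    have h3 := h.single_ge
    have h4 := h.card_le
    set y := (C.filter (fun c => qq c = 1)).card with hy
    obtain ⟨t, ht⟩ := Nat.exists_eq_add_of_le h4
    obtain ⟨u, hu⟩ := Nat.exists_eq_add_of_le (show t ≤ 2 * A.card + 4 by omega)
    have hu9 : 9 ≤ u := by omega
    have h5 : u * (t + 5) ≤ (2 * y) * (2 * (D - 1 - A.card)) := by
      refine Nat.mul_le_mul ?_ ?_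
      · omega
      · omega
    have h6 : (2 * y) * (2 * (D - 1 - A.card)) = 4 * (y * (D - 1 - A.card)) := by ring
    have h7 : 9 * t ≤ u * t := Nat.mul_le_mul_right _ hu9
    have h8 : u * (t + 5) = u * t + 5 * u := by ring
    omega

/-- The sufficiency part of Theorem B. -/
theorem factor_of_B (G : SimpleGraph V) {D : ℕ} (hD : MinDeg G D)
    (hE : Fintype.card V + 10 ≤ 4 * D)
    (hM : ∃ M : G.Subgraph, M.IsPerfectMatching)
    (hG : ∀ c : G.ConnectedComponent, 4 ∣ c.supp.ncard)
    (hconn : ∀ x y, G.Adj x y →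
      (G.induce ((G.connectedComponentMk x).supp \ {x, y})).Preconnected) :
    HasFactor (SimpleGraph.pathGraph 4) G := by
  classical
  obtain ⟨M, hM⟩ := hM
  obtain ⟨m, φ0, hφ0⟩ := exists_matched (PM.of_perfect M hM)
  have hcard : Fintype.card V = m * 2 := by
    rw [← Fintype.card_congr φ0, Fintype.card_prod, Fintype.card_fin, Fintype.card_bool]
  have h4 : 4 ∣ (univ : Finset V).card := dvd_of_closed hG univ (fun _ _ _ _ => mem_univ _)
  rw [card_univ, hcard] at h4
  by_contra hno
  obtain ⟨φ, hφ, A, C, h1, h2, h3, h5, h6⟩ := core (ι := Fin m) G ⟨φ0, hφ0⟩ (by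
    rw [Fintype.card_fin]
    rcases h4 with ⟨k, hk⟩
    exact ⟨k, by omega⟩) (fun φ hφ hP => hno (hasFactor_of_link φ hφ hP))
  have hcore : CoreData G φ A C := ⟨h1, h2, h3, h5, h6⟩
  refine hcore.false_B hφ hG hconn hD ?_
  rw [Fintype.card_fin]; omega

end H61P4
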