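import Pool.Agent.H61.P4.MainB

/-!
Theorem B, necessity.
-/

namespace H61P4

set_option linter.unusedSectionVars false

open Finset

/-- The condition on the remaining graph: it has a perfect matching, and every component has order
divisible by `4` and stays connected when any one or two of its vertices are deleted. -/
def Good {V : Type*} (G : SimpleGraph V) : Prop :=
  (∃ M : G.Subgraph, M.IsPerfectMatching) ∧
    ∀ c : G.ConnectedComponent, 4 ∣ c.supp.ncard ∧
      ∀ x ∈ c.supp, ∀ y ∈ c.supp, (G.induce (c.supp \ {x, y})).Preconnected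

theorem hasFactor_of_index {J W V : Type*} [Fintype J] {H : SimpleGraph W} {G : SimpleGraph V}
    (e : J × W ≃ V) (he : ∀ i a b, H.Adj a b → G.Adj (e (i, a)) (e (i, b))) : HasFactor H G := by
  classical
  refine ⟨Fintype.card J, ((Fintype.equivFin J).symm.prodCongr (Equiv.refl W)).trans e, ?_⟩
  intro i a b hab
  exact he _ a b hab

/-- Removing some of the copies of a factor. -/
theorem hasFactor_remove {m : ℕ} {W V : Type*} {H : SimpleGraph W} {G : SimpleGraph V}
    (e : Fin m × W ≃ V) (he : ∀ i a b, H.Adj a b → G.Adj (e (i, a)) (e (i, b)))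
    (T : Finset (Fin m)) : HasFactor H (G.induce {v : V | (e.symm v).1 ∉ T}) := by
  classical
  let E : {t : Fin m // t ∉ T} × W → {v : V | (e.symm v).1 ∉ T} :=
    fun x => ⟨e (x.1.1, x.2), by simpa using x.1.2⟩
  have hE : Function.Bijective E := by
    constructor
    · rintro ⟨⟨t, ht⟩, a⟩ ⟨⟨t', ht'⟩, a'⟩ h
      have h1 : e (t, a) = e (t', a') := congrArg Subtype.val h
      have h2 := e.injective h1
      simp only [Prod.mk.injEq] at h2
      obtain ⟨rfl, rfl⟩ := h2
      rfl
    · rintro ⟨v, hv⟩
      refine ⟨(⟨(e.symm v).1, hv⟩, (e.symm v).2), ?_⟩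
      apply Subtype.ext
      simp [E]
  refine hasFactor_of_index (Equiv.ofBijective E hE) ?_
  intro i a b hab
  exact he _ a b hab

variable {V : Type*} [Fintype V] {G : SimpleGraph V}

theorem MinDeg.induce {D : ℕ} (hD : MinDeg G D) (U : Set V) :
    MinDeg (G.induce U) (D - Uᶜ.ncard) := by
  classical
  intro v
  have h1 := hD v.1
  have h2 : (Subtype.val '' ((G.induce U).neighborSet v)) = G.neighborSet v.1 ∩ U := by
    ext w
    constructor
    · rintro ⟨w', hw', rfl⟩
      exact ⟨hw', w'.2⟩
    · rintro ⟨hw, hwU⟩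
      exact ⟨⟨w, hwU⟩, hw, rfl⟩
  have h3 : ((G.induce U).neighborSet v).ncard = (G.neighborSet v.1 ∩ U).ncard := by
    rw [← h2, Set.ncard_image_of_injective _ Subtype.val_injective]
  rw [h3]
  have h4 : G.neighborSet v.1 ⊆ (G.neighborSet v.1 ∩ U) ∪ Uᶜ := by
    intro w hw
    by_cases hwU : w ∈ U
    · exact Or.inl ⟨hw, hwU⟩
    · exact Or.inr hwU
  have h5 := Set.ncard_le_ncard h4 (Set.toFinite _)
  have h6 := Set.ncard_union_le (G.neighborSet v.1 ∩ U) Uᶜ
  omega

theorem MinDeg.supp {D : ℕ} (hD : MinDeg G D) (c : G.ConnectedComponent) :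
    D + 1 ≤ c.supp.ncard := by
  classical
  obtain ⟨v, rfl⟩ := c.exists_rep
  have h1 : insert v (G.neighborSet v) ⊆ (G.connectedComponentMk v).supp := by
    intro w hw
    rw [SimpleGraph.ConnectedComponent.mem_supp_iff]
    rcases hw with rfl | hw
    · rfl
    · exact SimpleGraph.ConnectedComponent.sound (SimpleGraph.Adj.reachable hw).symm
  have h2 := Set.ncard_le_ncard h1 (Set.toFinite _)
  have h3 : (insert v (G.neighborSet v)).ncard = (G.neighborSet v).ncard + 1 := by
    rw [Set.ncard_insert_of_notMem]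
    exact fun h => (SimpleGraph.Adj.ne h) rfl
  have h4 := hD v
  have h5 : (G.connectedComponentMk v) = Quot.mk G.Reachable v := rfl
  rw [h5] at h2
  omega

theorem MinDeg.card_comp {D : ℕ} (hD : MinDeg G D) :
    Nat.card G.ConnectedComponent * (D + 1) ≤ Fintype.card V := by
  classical
  rw [Nat.card_eq_fintype_card]
  have h1 := card_eq_sum_card_fiberwise (f := fun v => G.connectedComponentMk v)
    (s := (univ : Finset V)) (t := (univ : Finset G.ConnectedComponent))
    (fun _ _ => mem_coe.2 (mem_univ _))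
  rw [card_univ] at h1
  rw [h1, ← card_univ, ← smul_eq_mul, ← sum_const]
  refine sum_le_sum fun c _ => ?_
  have h2 := hD.supp c
  have h3 : ((univ.filter (fun v => G.connectedComponentMk v = c) : Finset V) : Set V) = c.supp := by
    ext v
    simp [SimpleGraph.ConnectedComponent.mem_supp_iff]
  rw [← h3, Set.ncard_coe_finset] at h2
  exact h2

theorem exists_mem_of_card {U U' : Set V} (hR : (U \ U').ncard ≤ 8) (S : Set U)
    (hS : 8 < S.ncard) : ∃ w ∈ S, w.1 ∈ U' := by
  by_contra hcon
  push Not at hcon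
  have h1 : Subtype.val '' S ⊆ U \ U' := by
    rintro _ ⟨w, hw, rfl⟩
    exact ⟨w.2, hcon w hw⟩
  have h2 := Set.ncard_le_ncard h1 (Set.toFinite _)
  rw [Set.ncard_image_of_injective _ Subtype.val_injective] at h2
  omega

/-- Deleting a separating pair together with few more vertices increases the number of
components. -/
theorem comp_step {U U' : Set V} (hUU : U' ⊆ U) (hR : (U \ U').ncard ≤ 8) {D : ℕ}
    (hD : MinDeg (G.induce U) D) (hD11 : 11 ≤ D) (c : (G.induce U).ConnectedComponent)
    (x y : U) (hx : x.1 ∉ U') (hy : y.1 ∉ U')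
    (hsep : ¬ ((G.induce U).induce (c.supp \ {x, y})).Preconnected) :
    Nat.card (G.induce U).ConnectedComponent + 1 ≤ Nat.card (G.induce U').ConnectedComponent := by
  classical
  have : Fintype U := Fintype.ofFinite U
  have : Fintype U' := Fintype.ofFinite U'
  let H := G.induce U
  let H' := G.induce U'
  let ψ : H' →g H := (G.induceHomOfLE hUU).toHom
  let f : H'.ConnectedComponent → H.ConnectedComponent := SimpleGraph.ConnectedComponent.map ψ
  have hf : ∀ w : U', f (H'.connectedComponentMk w) = H.connectedComponentMk ⟨w.1, hUU w.2⟩ :=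
    fun w => rfl
  have hsurj : Function.Surjective f := by
    intro c'
    have h1 := hD.supp c'
    obtain ⟨w, hw, hwU⟩ := exists_mem_of_card hR c'.supp (by omega)
    refine ⟨H'.connectedComponentMk ⟨w.1, hwU⟩, ?_⟩
    rw [hf]
    exact (SimpleGraph.ConnectedComponent.mem_supp_iff _ _).1 hw
  have hninj : ¬ Function.Injective f := by
    intro hinj
    unfold SimpleGraph.Preconnected at hsep
    push Not at hsep
    obtain ⟨u, u', huu⟩ := hsep
    let K := H.induce (c.supp \ {x, y})
    let S : (c.supp \ {x, y} : Set U) → Set U := fun u =>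
      {w | ∃ h : w ∈ c.supp \ {x, y}, K.Reachable u ⟨w, h⟩}
    have hScard : ∀ u, 8 < (S u).ncard := by
      intro u
      have h1 : H.neighborSet u.1 \ {x, y} ⊆ S u := by
        rintro w ⟨hw, hwxy⟩
        have h2 : w ∈ c.supp \ {x, y} := by
          refine ⟨?_, hwxy⟩
          have h3 := u.2.1
          rw [SimpleGraph.ConnectedComponent.mem_supp_iff] at h3 ⊢
          rw [← h3]
          have h5 : H.Adj u.1 w := hw
          exact SimpleGraph.ConnectedComponent.sound h5.reachable.symm
        refine ⟨h2, ?_⟩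
        have h4 : K.Adj u ⟨w, h2⟩ := hw
        exact h4.reachable
      have h2 := Set.ncard_le_ncard h1 (Set.toFinite _)
      have h3 : D ≤ (H.neighborSet u.1).ncard := hD u.1
      have h4 : (H.neighborSet u.1).ncard ≤ (H.neighborSet u.1 \ {x, y}).ncard +
          ({x, y} : Set U).ncard := by
        refine le_trans ?_ (Set.ncard_union_le _ _)
        refine Set.ncard_le_ncard ?_ (Set.toFinite _)
        intro w hw
        by_cases hwxy : w ∈ ({x, y} : Set U)
        · exact Or.inr hwxy
        · exact Or.inl ⟨hw, hwxy⟩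
      have h5 : ({x, y} : Set U).ncard ≤ 2 := by
        refine (Set.ncard_insert_le _ _).trans ?_
        rw [Set.ncard_singleton]
      omega
    obtain ⟨z, hzS, hzU⟩ := exists_mem_of_card hR (S u) (hScard u)
    obtain ⟨z', hzS', hzU'⟩ := exists_mem_of_card hR (S u') (hScard u')
    have h1 : f (H'.connectedComponentMk ⟨z.1, hzU⟩) = f (H'.connectedComponentMk ⟨z'.1, hzU'⟩) := by
      rw [hf, hf]
      obtain ⟨h2, -⟩ := hzS
      obtain ⟨h3, -⟩ := hzS'
      have h4 := (SimpleGraph.ConnectedComponent.mem_supp_iff _ _).1 h2.1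
      have h5 := (SimpleGraph.ConnectedComponent.mem_supp_iff _ _).1 h3.1
      exact h4.trans h5.symm
    have h2 := hinj h1
    have h3 : H'.Reachable ⟨z.1, hzU⟩ ⟨z'.1, hzU'⟩ := SimpleGraph.ConnectedComponent.exact h2
    have h4 := mem_of_reachable (U := {w : U' | (⟨w.1, hUU w.2⟩ : U) ∈ S u}) ?_ h3 hzS
    · obtain ⟨h5, h6⟩ := h4
      obtain ⟨h7, h8⟩ := hzS'
      exact huu (h6.trans h8.symm)
    · rintro w ⟨hw1, hw2⟩ w' hww
      have h5 : (⟨w'.1, hUU w'.2⟩ : U) ∈ c.supp \ {x, y} := by
        refine ⟨?_, ?_⟩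
        · have h6 := hw1.1
          rw [SimpleGraph.ConnectedComponent.mem_supp_iff] at h6 ⊢
          rw [← h6]
          have h7 : H.Adj ⟨w.1, hUU w.2⟩ ⟨w'.1, hUU w'.2⟩ := hww
          exact SimpleGraph.ConnectedComponent.sound h7.reachable.symm
        · rintro (h6 | h6)
          · exact hx (h6 ▸ w'.2)
          · exact hy ((Set.mem_singleton_iff.1 h6) ▸ w'.2)
      refine ⟨h5, hw2.trans ?_⟩
      have h7 : K.Adj ⟨⟨w.1, hUU w.2⟩, hw1⟩ ⟨⟨w'.1, hUU w'.2⟩, h5⟩ := hww
      exact h7.reachable
  rw [Nat.card_eq_fintype_card, Nat.card_eq_fintype_card]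
  exact Fintype.card_lt_of_surjective_not_injective f hsurj hninj

/-- The necessity part of Theorem B. -/
theorem good_of_factor [Nonempty V] {D : ℕ} (hD : MinDeg G D) (hn : Fintype.card V + 80 ≤ 4 * D)
    (hf : HasFactor (SimpleGraph.pathGraph 4) G) :
    ∃ (k : ℕ) (q : Fin k × Fin 4 ↪ V), k ≤ 4 ∧
      (∀ i a b, (SimpleGraph.pathGraph 4).Adj a b → G.Adj (q (i, a)) (q (i, b))) ∧
      Good (G.induce (Set.range q)ᶜ) := by
  classical
  obtain ⟨m, e, he⟩ := hf
  let U : Finset (Fin m) → Set V := fun T => {v : V | (e.symm v).1 ∉ T}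
  have hUc : ∀ T, (U T)ᶜ = (((T ×ˢ (univ : Finset (Fin 4))).image e : Finset V) : Set V) := by
    intro T
    ext v
    obtain ⟨⟨t, k⟩, rfl⟩ := e.surjective v
    simp only [U, Set.mem_compl_iff, Set.mem_ofPred_eq, Equiv.symm_apply_apply, not_not, coe_image,
      Set.mem_image, mem_coe, mem_product, mem_univ, and_true]
    constructor
    · intro h; exact ⟨(t, k), h, rfl⟩
    · rintro ⟨x, hx, hxe⟩
      have := e.injective hxe
      subst this
      exact hx
  have hUcard : ∀ T, (U T)ᶜ.ncard = 4 * T.card := by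
    intro T
    rw [hUc, Set.ncard_coe_finset, card_image_of_injective _ e.injective, card_product]
    simp [mul_comm]
  have hmin : ∀ T, MinDeg (G.induce (U T)) (D - 4 * T.card) := by
    intro T
    have := hD.induce (U T)
    rwa [hUcard] at this
  have hDn : D + 1 ≤ Fintype.card V := by
    obtain ⟨v⟩ := ‹Nonempty V›
    refine (hD.supp (G.connectedComponentMk v)).trans ?_
    rw [← Set.ncard_univ V |>.trans (Nat.card_eq_fintype_card)]
    exact Set.ncard_le_ncard (Set.subset_univ _) (Set.toFinite _)
  by_contra hcon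
  push Not at hcon
  have hbad : ∀ T : Finset (Fin m), T.card ≤ 4 → ¬ Good (G.induce (U T)) := by
    intro T hT hgood
    have hrange : (Set.range (fun x : Fin T.card × Fin 4 =>
        e ((T.equivFin.symm x.1).1, x.2)))ᶜ = U T := by
      rw [← compl_inj_iff, compl_compl, hUc]
      ext v
      simp only [Set.mem_range, coe_image, Set.mem_image, mem_coe, mem_product, mem_univ, and_true]
      constructor
      · rintro ⟨⟨i, a⟩, rfl⟩
        exact ⟨_, (T.equivFin.symm i).2, rfl⟩
      · rintro ⟨⟨t, a⟩, ht, rfl⟩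
        exact ⟨(T.equivFin ⟨t, ht⟩, a), by simp⟩
    refine hcon T.card ⟨fun x => e ((T.equivFin.symm x.1).1, x.2), ?_⟩ hT ?_ ?_
    · rintro ⟨i, a⟩ ⟨j, b⟩ h
      have h1 := e.injective h
      simp only [Prod.mk.injEq] at h1
      obtain ⟨h2, rfl⟩ := h1
      have h3 := T.equivFin.symm.injective (Subtype.ext h2)
      rw [h3]
    · intro i a b hab
      exact he _ a b hab
    · change Good (G.induce (Set.range (fun x : Fin T.card × Fin 4 =>
        e ((T.equivFin.symm x.1).1, x.2)))ᶜ)
      rw [hrange]
      exact hgood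
  have hstep : ∀ T : Finset (Fin m), T.card ≤ 4 → ∃ T' : Finset (Fin m), T'.card ≤ T.card + 2 ∧
      Nat.card (G.induce (U T)).ConnectedComponent + 1 ≤
        Nat.card (G.induce (U T')).ConnectedComponent := by
    intro T hT
    have hfac : HasFactor (SimpleGraph.pathGraph 4) (G.induce (U T)) := hasFactor_remove e he T
    have : Fintype (U T) := Fintype.ofFinite _
    have h1 := hbad T hT
    unfold Good at h1
    push Not at h1
    obtain ⟨c, hc⟩ := h1 (perfect_of_factor hfac)
    obtain ⟨x, hx, y, hy, hsep⟩ := hc (dvd_of_factor hfac c)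
    refine ⟨insert (e.symm x.1).1 (insert (e.symm y.1).1 T), ?_, ?_⟩
    · refine (card_insert_le _ _).trans ?_
      have := card_insert_le (e.symm y.1).1 T
      omega
    · refine comp_step (G := G) ?_ ?_ (hmin T) (by omega) c x y ?_ ?_ hsep
      · intro v hv
        simp only [U, Set.mem_ofPred_eq, mem_insert, not_or] at hv ⊢
        exact hv.2.2
      · have h2 : U T \ U (insert (e.symm x.1).1 (insert (e.symm y.1).1 T)) ⊆
            (((({(e.symm x.1).1, (e.symm y.1).1} : Finset (Fin m)) ×ˢ
              (univ : Finset (Fin 4))).image e : Finset V) : Set V) := by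
          rintro v ⟨hv1, hv2⟩
          simp only [U, Set.mem_ofPred_eq, mem_insert, not_or, not_and, not_not] at hv1 hv2
          rw [mem_coe, mem_image]
          refine ⟨e.symm v, ?_, by simp⟩
          simp only [mem_product, mem_univ, and_true, mem_insert, mem_singleton]
          by_contra h3
          push Not at h3
          exact hv1 (hv2 h3.1 h3.2)
        have h3 := Set.ncard_le_ncard h2 (Set.toFinite _)
        rw [Set.ncard_coe_finset] at h3
        refine h3.trans (card_image_le.trans ?_)
        rw [card_product]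
        have h4 : ({(e.symm x.1).1, (e.symm y.1).1} : Finset (Fin m)).card ≤ 2 := card_le_two
        simp only [card_univ, Fintype.card_fin]
        omega
      · simp [U]
      · simp [U]
  have hVne : Nonempty (U ∅) := by
    obtain ⟨v⟩ := ‹Nonempty V›
    exact ⟨⟨v, by simp [U]⟩⟩
  obtain ⟨T1, h1, h2⟩ := hstep ∅ (by simp)
  rw [card_empty] at h1
  obtain ⟨T2, h3, h4⟩ := hstep T1 (by omega)
  obtain ⟨T3, h5, h6⟩ := hstep T2 (by omega)
  have h7 : 1 ≤ Nat.card (G.induce (U ∅)).ConnectedComponent := by
    have : Fintype (U ∅) := Fintype.ofFinite _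
    have hne : Nonempty (G.induce (U ∅)).ConnectedComponent :=
      ⟨(G.induce (U ∅)).connectedComponentMk hVne.some⟩
    exact Nat.card_pos
  have : Fintype (U T3) := Fintype.ofFinite _
  have h8 := (hmin T3).card_comp
  have h9 : Fintype.card (U T3) + 4 * T3.card = Fintype.card V := by
    have h11 := Set.ncard_add_ncard_compl (U T3)
    rw [hUcard, Nat.card_eq_fintype_card, ← Nat.card_coe_set_eq, Nat.card_eq_fintype_card] at h11
    exact h11
  have h10 : 4 * (D - 4 * T3.card + 1) ≤
      Nat.card (G.induce (U T3)).ConnectedComponent * (D - 4 * T3.card + 1) :=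
    Nat.mul_le_mul_right _ (by omega)
  omega

end H61P4
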