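import Mathlib

/-!
Matchings of a finite graph covering a given finset `X` of vertices, as an inductive predicate.
-/

namespace H61P4

open Finset

variable {ι : Type*} [DecidableEq ι]

/-- `PM L X`: the graph `L` has a matching whose set of covered vertices is exactly `X`. -/
inductive PM (L : SimpleGraph ι) : Finset ι → Prop
  | nil : PM L ∅
  | cons {a b : ι} {X : Finset ι} (hab : L.Adj a b) (ha : a ∉ X) (hb : b ∉ X) (h : PM L X) :
      PM L (insert a (insert b X))

variable {L L' : SimpleGraph ι}

theorem PM.pair {a b : ι} (hab : L.Adj a b) : PM L {a, b} := by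
  have := PM.cons (X := ∅) hab (by simp) (by simp) PM.nil
  simpa using this

theorem PM.even {X : Finset ι} (h : PM L X) : Even X.card := by
  induction h with
  | nil => simp
  | @cons a b X hab ha hb h ih =>
    rw [card_insert_of_notMem, card_insert_of_notMem hb]
    · rw [add_assoc]
      exact ih.add (by decide)
    · simp [ha, hab.ne]

theorem PM.mono {X : Finset ι} (h : PM L X)
    (h' : ∀ i ∈ X, ∀ j ∈ X, L.Adj i j → L'.Adj i j) : PM L' X := by
  induction h with
  | nil => exact PM.nil
  | @cons a b X hab ha hb h ih =>
    refine PM.cons (h' a (by simp) b (by simp) hab) ha hb (ih ?_)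
    intro i hi j hj
    exact h' i (by simp [hi]) j (by simp [hj])

theorem PM.union {X Y : Finset ι} (hX : PM L X) (hY : PM L Y) (hd : Disjoint X Y) :
    PM L (X ∪ Y) := by
  induction hX with
  | nil => simpa using hY
  | @cons a b X hab ha hb h ih =>
    rw [disjoint_insert_left, disjoint_insert_left] at hd
    obtain ⟨h1, h2, h3⟩ := hd
    rw [insert_union, insert_union]
    exact PM.cons hab (by simp [ha, h1]) (by simp [hb, h2]) (ih h3)

theorem PM.remove {X : Finset ι} (h : PM L X) {a : ι} (ha : a ∈ X) :
    ∃ b ∈ X, L.Adj a b ∧ PM L ((X.erase a).erase b) := by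
  induction h with
  | nil => simp at ha
  | @cons c d X hcd hc hd h ih =>
    by_cases hac : a = c
    · subst hac
      refine ⟨d, by simp, hcd, ?_⟩
      have : ((insert a (insert d X)).erase a).erase d = X := by
        ext z; simp only [mem_erase, mem_insert]
        constructor
        · rintro ⟨h1, h2, h3⟩
          tauto
        · intro hz
          refine ⟨?_, ?_, by simp [hz]⟩
          · rintro rfl; exact hd hz
          · rintro rfl; exact hc hz
      rw [this]; exact h
    by_cases had : a = d
    · subst had
      refine ⟨c, by simp, hcd.symm, ?_⟩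
      have : ((insert c (insert a X)).erase a).erase c = X := by
        ext z; simp only [mem_erase, mem_insert]
        constructor
        · rintro ⟨h1, h2, h3⟩
          tauto
        · intro hz
          refine ⟨?_, ?_, by simp [hz]⟩
          · rintro rfl; exact hc hz
          · rintro rfl; exact hd hz
      rw [this]; exact h
    have haX : a ∈ X := by
      simp only [mem_insert] at ha; tauto
    obtain ⟨b, hb, hab, hP⟩ := ih haX
    refine ⟨b, by simp [hb], hab, ?_⟩
    have hbc : b ≠ c := by rintro rfl; exact hc hb
    have hbd : b ≠ d := by rintro rfl; exact hd hb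
    have : ((insert c (insert d X)).erase a).erase b
        = insert c (insert d ((X.erase a).erase b)) := by
      ext z; simp only [mem_erase, mem_insert]
      constructor
      · tauto
      · rintro (h1 | h1 | h1)
        · subst h1; exact ⟨Ne.symm hbc, Ne.symm hac, Or.inl rfl⟩
        · subst h1; exact ⟨Ne.symm hbd, Ne.symm had, Or.inr (Or.inl rfl)⟩
        · tauto
    rw [this]
    exact PM.cons hcd (by simp [hc]) (by simp [hd]) hP

theorem PM.biUnion {κ : Type*} [DecidableEq κ] (s : Finset κ) (f : κ → Finset ι)
    (hf : ∀ k ∈ s, PM L (f k)) (hd : ∀ k ∈ s, ∀ l ∈ s, k ≠ l → Disjoint (f k) (f l)) :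
    PM L (s.biUnion f) := by
  induction s using Finset.induction_on with
  | empty => simpa using PM.nil
  | insert k s hk ih =>
    rw [biUnion_insert]
    refine PM.union (hf k (by simp)) (ih ?_ ?_) ?_
    · intro l hl; exact hf l (by simp [hl])
    · intro l hl m hm; exact hd l (by simp [hl]) m (by simp [hm])
    · rw [disjoint_biUnion_right]
      intro l hl
      exact hd k (by simp) l (by simp [hl]) (by rintro rfl; exact hk hl)

theorem PM.of_fun (X : Finset ι) (m : ι → ι)
    (hm : ∀ i ∈ X, m i ∈ X ∧ m (m i) = i ∧ L.Adj i (m i)) : PM L X := by
  induction X using Finset.strongInduction with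
  | H X ih =>
    rcases X.eq_empty_or_nonempty with rfl | ⟨a, ha⟩
    · exact PM.nil
    · obtain ⟨h1, h2, h3⟩ := hm a ha
      have hX : X = insert a (insert (m a) ((X.erase a).erase (m a))) := by
        ext z
        simp only [mem_insert, mem_erase]
        constructor
        · intro hz
          by_cases h4 : z = a
          · exact Or.inl h4
          · by_cases h5 : z = m a
            · exact Or.inr (Or.inl h5)
            · exact Or.inr (Or.inr ⟨h5, h4, hz⟩)
        · rintro (rfl | rfl | h)
          · exact ha
          · exact h1
          · exact h.2.2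
      rw [hX]
      refine PM.cons h3 (by simp) (by simp) (ih _ ?_ ?_)
      · refine (Finset.ssubset_iff_of_subset ?_).2 ⟨a, ha, by simp⟩
        exact (erase_subset _ _).trans (erase_subset _ _)
      · intro i hi
        simp only [mem_erase] at hi
        obtain ⟨hi1, hi2, hi3⟩ := hi
        obtain ⟨h4, h5, h6⟩ := hm i hi3
        refine ⟨?_, h5, h6⟩
        simp only [mem_erase]
        refine ⟨?_, ?_, h4⟩
        · intro h7
          apply hi2
          rw [← h5, h7, h2]
        · intro h7
          apply hi1
          rw [← h5, h7]

end H61P4
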