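import Pool.Agent.H61.P4.MainA

/-!
Sharpness of Theorem A: three cliques of orders `4t+2, 4t+2, 4t+3` joined to one further vertex.
-/

namespace H61P4

open Finset

/-- The clique label of a number. -/
def labN (t : ℕ) (n : ℕ) : ℕ := if n < 2 * t + 1 then 1 else if n < 4 * t + 2 then 2 else 0

/-- The clique label of a vertex. -/
def lab (t : ℕ) (v : Bool × Fin (6 * t + 4)) : ℕ := labN t v.2.val

/-- The cut vertex. -/
def apex (t : ℕ) : Bool × Fin (6 * t + 4) := (true, ⟨6 * t + 3, by omega⟩)

/-- The example. -/
def exG (t : ℕ) : SimpleGraph (Bool × Fin (6 * t + 4)) where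
  Adj u v := u ≠ v ∧ (u = apex t ∨ v = apex t ∨ lab t u = lab t v)
  symm := ⟨fun u v h => ⟨h.1.symm, by
    rcases h.2 with h | h | h
    · exact Or.inr (Or.inl h)
    · exact Or.inl h
    · exact Or.inr (Or.inr h.symm)⟩⟩
  loopless := ⟨fun u h => h.1 rfl⟩

theorem exG_adj {t : ℕ} {u v : Bool × Fin (6 * t + 4)} :
    (exG t).Adj u v ↔ u ≠ v ∧ (u = apex t ∨ v = apex t ∨ lab t u = lab t v) := Iff.rfl

theorem exG_connected (t : ℕ) : (exG t).Connected := by
  have h : ∀ v, (exG t).Reachable v (apex t) := by
    intro v
    by_cases hv : v = apex t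
    · rw [hv]
    · exact SimpleGraph.Adj.reachable (exG_adj.2 ⟨hv, Or.inr (Or.inl rfl)⟩)
  exact { preconnected := fun u v => (h u).trans (h v).symm, nonempty := ⟨apex t⟩ }

theorem exG_perfect (t : ℕ) : ∃ M : (exG t).Subgraph, M.IsPerfectMatching := by
  refine perfect_of_fun (fun v => (!v.1, v.2)) ?_ ?_
  · rintro ⟨b, i⟩
    simp
  · rintro ⟨b, i⟩
    refine exG_adj.2 ⟨?_, Or.inr (Or.inr rfl)⟩
    intro h
    have := congrArg Prod.fst h
    simp at this

/-- The index shift embedding a block of `2t+1` pairs. -/
def blk (t s : ℕ) (hs : s ≤ 4 * t + 2) (x : Bool × Fin (2 * t + 1)) : Bool × Fin (6 * t + 4) :=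
  (x.1, ⟨s + x.2.val, by have := x.2.2; omega⟩)

theorem blk_inj (t s : ℕ) (hs : s ≤ 4 * t + 2) : Function.Injective (blk t s hs) := by
  rintro ⟨b, i⟩ ⟨c, j⟩ h
  simp only [blk, Prod.mk.injEq, Fin.mk.injEq] at h
  obtain ⟨rfl, h2⟩ := h
  have : i = j := Fin.ext (by omega)
  rw [this]

theorem blk_card (t s : ℕ) (hs : s ≤ 4 * t + 2) :
    ((univ : Finset (Bool × Fin (2 * t + 1))).image (blk t s hs)).card = 4 * t + 2 := by
  rw [card_image_of_injective _ (blk_inj t s hs), card_univ, Fintype.card_prod, Fintype.card_bool,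
    Fintype.card_fin]
  ring

theorem apex_not_blk (t s : ℕ) (hs : s ≤ 4 * t + 2) (x) : blk t s hs x ≠ apex t := by
  intro h
  have := congrArg (fun y => (Prod.snd y).val) h
  simp only [blk, apex] at this
  have := x.2.2
  omega

theorem exG_deg (t : ℕ) (v : Bool × Fin (6 * t + 4)) : 4 * t + 2 ≤ ((exG t).neighborSet v).ncard := by
  classical
  -- a block of vertices with the label of `v`
  obtain ⟨s, hs, hlab⟩ : ∃ s, ∃ hs : s ≤ 4 * t + 2, ∀ x, lab t (blk t s hs x) = lab t v := by
    have hb : ∀ s (hs : s ≤ 4 * t + 2) x, lab t (blk t s hs x) = labN t (s + x.2.val) :=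
      fun s hs x => rfl
    have hv : lab t v = labN t v.2.val := rfl
    by_cases h1 : v.2.val < 2 * t + 1
    · refine ⟨0, by omega, fun x => ?_⟩
      have := x.2.2
      rw [hb, hv]
      unfold labN
      split_ifs <;> omega
    · by_cases h2 : v.2.val < 4 * t + 2
      · refine ⟨2 * t + 1, by omega, fun x => ?_⟩
        have := x.2.2
        rw [hb, hv]
        unfold labN
        split_ifs <;> omega
      · refine ⟨4 * t + 2, by omega, fun x => ?_⟩
        have := x.2.2
        rw [hb, hv]
        unfold labN
        split_ifs <;> omega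
  set B := (univ : Finset (Bool × Fin (2 * t + 1))).image (blk t s hs) with hB
  have h1 : (((insert (apex t) B).erase v : Finset _) : Set (Bool × Fin (6 * t + 4))) ⊆
      (exG t).neighborSet v := by
    intro w hw
    rw [mem_coe, mem_erase, mem_insert] at hw
    rw [SimpleGraph.mem_neighborSet, exG_adj]
    refine ⟨Ne.symm hw.1, ?_⟩
    rcases hw.2 with h | h
    · exact Or.inr (Or.inl h)
    · obtain ⟨x, -, rfl⟩ := mem_image.1 h
      exact Or.inr (Or.inr (hlab x).symm)
  have h2 := Set.ncard_le_ncard h1 (Set.toFinite _)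
  rw [Set.ncard_coe_finset] at h2
  have h3 : (insert (apex t) B).card = 4 * t + 3 := by
    rw [card_insert_of_notMem, blk_card]
    intro h
    obtain ⟨x, -, hx⟩ := mem_image.1 h
    exact apex_not_blk t s hs x hx
  have h4 := pred_card_le_card_erase (s := insert (apex t) B) (a := v)
  omega

theorem lab_card (t : ℕ) (j : ℕ) (hj : j = 1 ∨ j = 2) :
    ((univ : Finset (Bool × Fin (6 * t + 4))).filter (fun v => lab t v = j)).card = 4 * t + 2 := by
  classical
  rcases hj with rfl | rfl
  · rw [← blk_card t 0 (by omega)]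
    congr 1
    ext ⟨b, i⟩
    simp only [mem_filter, mem_univ, true_and, mem_image]
    constructor
    · intro h
      have h' : labN t i.val = 1 := h
      have hi : i.val < 2 * t + 1 := by
        unfold labN at h'
        split_ifs at h' <;> omega
      refine ⟨(b, ⟨i.val, hi⟩), ?_⟩
      simp only [blk, Prod.mk.injEq, true_and]
      apply Fin.ext
      simp only
      omega
    · rintro ⟨x, hx⟩
      have := x.2.2
      rw [← hx]
      change labN t (0 + x.2.val) = 1
      unfold labN
      split_ifs <;> omega
  · rw [← blk_card t (2 * t + 1) (by omega)]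
    congr 1
    ext ⟨b, i⟩
    simp only [mem_filter, mem_univ, true_and, mem_image]
    constructor
    · intro h
      have h' : labN t i.val = 2 := h
      have hi : ¬ i.val < 2 * t + 1 ∧ i.val < 4 * t + 2 := by
        unfold labN at h'
        split_ifs at h' <;> omega
      refine ⟨(b, ⟨i.val - (2 * t + 1), by omega⟩), ?_⟩
      simp only [blk, Prod.mk.injEq, true_and]
      apply Fin.ext
      simp only
      omega
    · rintro ⟨x, hx⟩
      have := x.2.2
      rw [← hx]
      change labN t (2 * t + 1 + x.2.val) = 2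
      unfold labN
      split_ifs <;> omega

theorem lab_apex (t : ℕ) : lab t (apex t) = 0 := by
  change labN t (6 * t + 3) = 0
  unfold labN
  split_ifs <;> omega

theorem exG_no_factor (t : ℕ) : ¬ HasFactor (SimpleGraph.pathGraph 4) (exG t) := by
  classical
  rintro ⟨m, e, he⟩
  set i0 := (e.symm (apex t)).1 with hi0
  set k0 := (e.symm (apex t)).2 with hk0
  have hapex : e (i0, k0) = apex t := by simp [hi0, hk0]
  have hne : ∀ i k, i ≠ i0 → e (i, k) ≠ apex t := by
    intro i k hi h
    apply hi
    rw [hi0, ← h]
    simp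
  have hlab : ∀ i k, i ≠ i0 → lab t (e (i, k)) = lab t (e (i, 0)) := by
    intro i k hi
    have hstep : ∀ a b, (SimpleGraph.pathGraph 4).Adj a b →
        lab t (e (i, a)) = lab t (e (i, b)) := by
      intro a b hab
      have h1 := (exG_adj.1 (he i a b hab)).2
      rcases h1 with h | h | h
      · exact absurd h (hne i a hi)
      · exact absurd h (hne i b hi)
      · exact h
    have h01 := hstep 0 1 (by rw [SimpleGraph.pathGraph_adj]; decide)
    have h12 := hstep 1 2 (by rw [SimpleGraph.pathGraph_adj]; decide)
    have h23 := hstep 2 3 (by rw [SimpleGraph.pathGraph_adj]; decide)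
    fin_cases k
    · rfl
    · exact h01.symm
    · exact (h01.trans h12).symm
    · exact (h01.trans (h12.trans h23)).symm
  have key : ∀ j, (j = 1 ∨ j = 2) →
      2 ≤ ((univ : Finset (Fin 4)).filter (fun k => lab t (e (i0, k)) = j)).card := by
    intro j hj
    have h1 := lab_card t j hj
    have h2 : ((univ : Finset (Bool × Fin (6 * t + 4))).filter (fun v => lab t v = j)).card =
        ((univ : Finset (Fin m × Fin 4)).filter (fun x => lab t (e x) = j)).card := by
      rw [← card_map e.toEmbedding]
      congr 1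
      ext v
      simp only [mem_filter, mem_univ, true_and, mem_map, Equiv.coe_toEmbedding]
      constructor
      · intro h
        exact ⟨e.symm v, by simpa using h, by simp⟩
      · rintro ⟨x, hx, rfl⟩
        exact hx
    rw [h1] at h2
    have h3 : ((univ : Finset (Fin m × Fin 4)).filter (fun x => lab t (e x) = j)).card =
        ∑ i : Fin m, ((univ : Finset (Fin 4)).filter (fun k => lab t (e (i, k)) = j)).card := by
      rw [card_filter, ← univ_product_univ, sum_product]
      refine sum_congr rfl fun i _ => ?_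
      rw [card_filter]
    rw [h3, ← add_sum_erase _ _ (mem_univ i0)] at h2
    have h4 : 4 ∣ ∑ i ∈ (univ : Finset (Fin m)).erase i0,
        ((univ : Finset (Fin 4)).filter (fun k => lab t (e (i, k)) = j)).card := by
      refine dvd_sum fun i hi => ?_
      have hi' := ne_of_mem_erase hi
      by_cases h5 : lab t (e (i, 0)) = j
      · have : (univ : Finset (Fin 4)).filter (fun k => lab t (e (i, k)) = j) = univ := by
          ext k
          simp [hlab i k hi', h5]
        rw [this]
        simp
      · have : (univ : Finset (Fin 4)).filter (fun k => lab t (e (i, k)) = j) = ∅ := by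
          ext k
          simp [hlab i k hi', h5]
        rw [this]
        simp
    rcases h4 with ⟨a, ha⟩
    omega
  have h1 := key 1 (Or.inl rfl)
  have h2 := key 2 (Or.inr rfl)
  have h3 : Disjoint ((univ : Finset (Fin 4)).filter (fun k => lab t (e (i0, k)) = 1))
      ((univ : Finset (Fin 4)).filter (fun k => lab t (e (i0, k)) = 2)) := by
    rw [disjoint_left]
    intro k hk hk'
    have h4 := (mem_filter.1 hk).2
    have h5 := (mem_filter.1 hk').2
    omega
  have h4 : ((univ : Finset (Fin 4)).filter (fun k => lab t (e (i0, k)) = 1)) ∪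
      ((univ : Finset (Fin 4)).filter (fun k => lab t (e (i0, k)) = 2)) ⊆ univ.erase k0 := by
    intro k hk
    refine mem_erase.2 ⟨?_, mem_univ _⟩
    rintro rfl
    rw [mem_union, mem_filter, mem_filter, hapex, lab_apex] at hk
    omega
  have h5 := card_le_card h4
  rw [card_union_of_disjoint h3, card_erase_of_mem (mem_univ _), card_univ, Fintype.card_fin] at h5
  omega

theorem theorem_A_sharp (t : ℕ) : ∃ (V : Type) (_ : Fintype V) (G : SimpleGraph V),
    Fintype.card V = 12 * t + 8 ∧ (∀ v, Fintype.card V ≤ 3 * (G.neighborSet v).ncard + 2) ∧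
    G.Connected ∧ (∃ M : G.Subgraph, M.IsPerfectMatching) ∧
    ¬ HasFactor (SimpleGraph.pathGraph 4) G := by
  refine ⟨Bool × Fin (6 * t + 4), inferInstance, exG t, ?_, ?_, exG_connected t, exG_perfect t,
    exG_no_factor t⟩
  · rw [Fintype.card_prod, Fintype.card_bool, Fintype.card_fin]; ring
  · intro v
    have := exG_deg t v
    rw [Fintype.card_prod, Fintype.card_bool, Fintype.card_fin]
    omega

end H61P4
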