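import Pool.Agent.H61.P4.Defic

/-!
The link graph of a perfect matching and the exchange argument.
-/

namespace H61P4

set_option linter.unusedSectionVars false

open Finset

variable {ι : Type*} [DecidableEq ι] [Fintype ι] {V : Type*}

/-- The link graph: the vertices are the indices of the pairs, two pairs are adjacent if some edge
of `G` joins them. -/
def lk (G : SimpleGraph V) (φ : ι × Bool ≃ V) : SimpleGraph ι where
  Adj i j := i ≠ j ∧ ∃ p q, G.Adj (φ (i, p)) (φ (j, q))
  symm := ⟨fun i j h => ⟨h.1.symm, by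
    obtain ⟨-, p, q, h⟩ := h
    exact ⟨q, p, h.symm⟩⟩⟩
  loopless := ⟨fun i h => h.1 rfl⟩

/-- The pairs are edges of `G`. -/
def Matched (G : SimpleGraph V) (φ : ι × Bool ≃ V) : Prop :=
  ∀ i, G.Adj (φ (i, false)) (φ (i, true))

/-- There is a matching of size 2 between the pairs `i` and `a`. -/
def Cross (G : SimpleGraph V) (φ : ι × Bool ≃ V) (i a : ι) : Prop :=
  ∃ p : Bool, G.Adj (φ (i, false)) (φ (a, p)) ∧ G.Adj (φ (i, true)) (φ (a, !p))

variable {G : SimpleGraph V}

theorem Cross.exists {φ : ι × Bool ≃ V} {i a : ι} (h : Cross G φ i a) (s : Bool) :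
    ∃ q, G.Adj (φ (i, q)) (φ (a, s)) := by
  obtain ⟨p, h1, h2⟩ := h
  by_cases hs : s = p
  · exact ⟨false, hs ▸ h1⟩
  · have : s = !p := by cases s <;> cases p <;> simp_all
    exact ⟨true, this ▸ h2⟩

theorem swap_lemma (φ : ι × Bool ≃ V) (hφ : Matched G φ) {X : Finset ι} (hX : PM (lk G φ) X)
    {v w a : ι} (hv : v ∉ X) (hw : w ∉ X) (hvw : v ≠ w) (ha : a ∈ X) (hva : Cross G φ v a)
    (hwa : Cross G φ w a) :
    ∃ φ' : ι × Bool ≃ V, Matched G φ' ∧ PM (lk G φ') (insert v (insert w X)) := by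
  obtain ⟨p, hp1, hp2⟩ := hwa
  have hwa' : w ≠ a := fun h => hw (h ▸ ha)
  have hva' : v ≠ a := fun h => hv (h ▸ ha)
  let φ' : ι × Bool ≃ V := (Equiv.swap (w, false) (a, !p)).trans φ
  have e1 : φ' (w, false) = φ (a, !p) := by simp [φ']
  have e2 : φ' (w, true) = φ (w, true) := by
    simp only [φ', Equiv.trans_apply]
    rw [Equiv.swap_apply_of_ne_of_ne]
    · simp
    · simp [hwa']
  have e3 : φ' (a, !p) = φ (w, false) := by simp [φ']
  have e4 : φ' (a, p) = φ (a, p) := by
    simp only [φ', Equiv.trans_apply]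
    rw [Equiv.swap_apply_of_ne_of_ne]
    · simp [hwa'.symm]
    · simp
  have e5 : ∀ i s, i ≠ w → i ≠ a → φ' (i, s) = φ (i, s) := by
    intro i s h1 h2
    simp only [φ', Equiv.trans_apply]
    rw [Equiv.swap_apply_of_ne_of_ne]
    · simp [h1]
    · simp [h2]
  refine ⟨φ', ?_, ?_⟩
  · intro i
    by_cases h1 : i = w
    · subst h1
      rw [e1, e2]
      exact hp2.symm
    · by_cases h2 : i = a
      · subst h2
        cases p
        · simp only [Bool.not_false] at e3
          rw [e3, e4]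
          exact hp1.symm
        · simp only [Bool.not_true] at e3
          rw [e3, e4]
          exact hp1
      · rw [e5 i _ h1 h2, e5 i _ h1 h2]
        exact hφ i
  · obtain ⟨t, htX, hat, hP⟩ := hX.remove ha
    have htw : t ≠ w := fun h => hw (h ▸ htX)
    have htv : t ≠ v := fun h => hv (h ▸ htX)
    have hta : t ≠ a := fun h => (h ▸ hat).ne rfl
    have hP' : PM (lk G φ') ((X.erase a).erase t) := by
      refine hP.mono ?_
      intro i hi j hj hij
      simp only [mem_erase] at hi hj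
      obtain ⟨hne, q1, q2, hq⟩ := hij
      have hiw : i ≠ w := fun h => hw (h ▸ hi.2.2)
      have hjw : j ≠ w := fun h => hw (h ▸ hj.2.2)
      refine ⟨hne, q1, q2, ?_⟩
      rw [e5 i _ hiw hi.2.1, e5 j _ hjw hj.2.1]
      exact hq
    obtain ⟨-, s, q, hsq⟩ := hat
    by_cases hs : s = p
    · -- `t` linked with `a`, `v` with `w`
      subst hs
      have h1 : (lk G φ').Adj a t := by
        refine ⟨hta.symm, s, q, ?_⟩
        rw [e4, e5 t _ htw hta]; exact hsq
      have h2 : (lk G φ').Adj v w := by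
        obtain ⟨q', hq'⟩ := hva.exists (!s)
        refine ⟨hvw, q', false, ?_⟩
        rw [e1, e5 v _ hvw hva']; exact hq'
      have h3 : PM (lk G φ') (insert v (insert w (insert a (insert t ((X.erase a).erase t))))) := by
        refine PM.cons h2 ?_ ?_ (PM.cons h1 (by simp) (by simp) hP')
        · simp only [mem_insert, mem_erase, not_or]
          exact ⟨hva', htv.symm, fun h => hv h.2.2⟩
        · simp only [mem_insert, mem_erase, not_or]
          exact ⟨hwa', htw.symm, fun h => hw h.2.2⟩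
      have h4 : insert a (insert t ((X.erase a).erase t)) = X := by
        rw [insert_erase (mem_erase.2 ⟨hta, htX⟩), insert_erase ha]
      rw [h4] at h3
      exact h3
    · have hs' : s = !p := by cases s <;> cases p <;> simp_all
      subst hs'
      have h1 : (lk G φ').Adj w t := by
        refine ⟨htw.symm, false, q, ?_⟩
        rw [e1, e5 t _ htw hta]; exact hsq
      have h2 : (lk G φ').Adj v a := by
        obtain ⟨q', hq'⟩ := hva.exists p
        refine ⟨hva', q', p, ?_⟩
        rw [e4, e5 v _ hvw hva']; exact hq'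
      have h3 : PM (lk G φ') (insert v (insert a (insert w (insert t ((X.erase a).erase t))))) := by
        refine PM.cons h2 ?_ ?_ (PM.cons h1 ?_ (by simp) hP')
        · simp only [mem_insert, mem_erase, not_or]
          exact ⟨hvw, htv.symm, fun h => hv h.2.2⟩
        · simp only [mem_insert, mem_erase, not_or]
          exact ⟨hwa'.symm, hta.symm, fun h => h.2.1 rfl⟩
        · simp only [mem_erase]
          exact fun h => hw h.2.2
      have h4 : insert v (insert a (insert w (insert t ((X.erase a).erase t)))) =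
          insert v (insert w X) := by
        have h5 : insert a (insert w (insert t ((X.erase a).erase t))) =
            insert w (insert a (insert t ((X.erase a).erase t))) := insert_comm _ _ _
        rw [h5, insert_erase (mem_erase.2 ⟨hta, htX⟩), insert_erase ha]
      rw [h4] at h3
      exact h3

/-- The core: if no perfect matching of `G` has a link graph with a perfect matching, then for some
perfect matching there is a set `A` and at least `|A| + 2` classes of parts, such that no pair of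
`A` crosses parts of two different classes. -/
theorem core (G : SimpleGraph V) (hex : ∃ φ : ι × Bool ≃ V, Matched G φ)
    (hev : Even (Fintype.card ι)) (hno : ∀ φ : ι × Bool ≃ V, Matched G φ → ¬ PM (lk G φ) univ) :
    ∃ φ : ι × Bool ≃ V, Matched G φ ∧
      ∃ (A : Finset ι) (C : Finset (Finset ι × Finset (Finset ι))),
      A.card + 2 ≤ C.card ∧
      (∀ c ∈ C, c.2.card = c.1.card + 1 ∧ ∀ K ∈ c.2, Odd K.card) ∧
      (∀ c ∈ C, ∀ K ∈ c.2, ∀ v ∈ K, ∀ w, (lk G φ).Adj v w → w ∈ K ∨ w ∈ c.1 ∨ w ∈ A) ∧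
      (A.card + ∑ c ∈ C, (c.1.card + ∑ K ∈ c.2, K.card) ≤ Fintype.card ι) ∧
      (∀ c ∈ C, ∀ c' ∈ C, c ≠ c' → ∀ K ∈ c.2, ∀ K' ∈ c'.2, ∀ v ∈ K, ∀ w ∈ K', v ≠ w ∧ v ∉ A ∧
        ∀ a ∈ A, ¬ (Cross G φ v a ∧ Cross G φ w a)) := by
  classical
  let Q : ℕ → Prop := fun k => ∃ φ : ι × Bool ≃ V, Matched G φ ∧ ∃ X, PM (lk G φ) X ∧ X.card = k
  have hQ0 : Q 0 := by
    obtain ⟨φ, hφ⟩ := hex
    exact ⟨φ, hφ, ∅, PM.nil, by simp⟩
  have hQle : ∀ k, Q k → k ≤ Fintype.card ι := by
    rintro k ⟨φ, -, X, -, rfl⟩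
    exact card_le_univ X
  obtain ⟨k, hk, hkmax⟩ : ∃ k, Q k ∧ ∀ j, Q j → j ≤ k := by
    refine ⟨Nat.findGreatest Q (Fintype.card ι), Nat.findGreatest_spec (Nat.zero_le _) hQ0, ?_⟩
    intro j hj
    exact Nat.le_findGreatest (hQle j hj) hj
  obtain ⟨φ, hφ, X0, hX0, hX0k⟩ := hk
  obtain ⟨r, A, C, h1, h2, h3, h4, h5, h6⟩ := structure_thm (lk G φ) k ⟨X0, hX0, hX0k⟩
    (fun X hX => hkmax _ ⟨φ, hφ, X, hX, rfl⟩)
  have hX0even := hX0.even
  have hr0 : r ≠ 0 := by
    rintro rfl
    apply hno φ hφ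
    have : X0 = univ := by
      apply eq_univ_of_card
      omega
    rw [← this]; exact hX0
  have hr2 : 2 ≤ r := by
    rcases hev with ⟨a, ha⟩
    rcases hX0even with ⟨b, hb⟩
    omega
  refine ⟨φ, hφ, A, C, by omega, h3, h4, h5, ?_⟩
  intro c hc c' hc' hne K hK K' hK' v hv w hw
  obtain ⟨hvw, X, hX, hvX, hwX, hAX, hXr⟩ := h6 c hc c' hc' hne K hK K' hK' v hv w hw
  refine ⟨hvw, fun h => hvX (hAX h), ?_⟩
  rintro a ha ⟨hva, hwa⟩
  obtain ⟨φ', hφ', hX'⟩ := swap_lemma φ hφ hX hvX hwX hvw (hAX ha) hva hwa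
  have h7 := hkmax _ ⟨φ', hφ', _, hX', rfl⟩
  rw [card_insert_of_notMem (by simp [hvw, hvX]), card_insert_of_notMem hwX] at h7
  omega

end H61P4
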